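import Pool.Agent.H867.FT.Gen

set_option autoImplicit false
set_option linter.all false

namespace Pool.Agent.H407.FTLAT

open Pool.Agent.H867.FT Matrix
open scoped nonZeroDivisors

section general

variable {A B F E : Type} [CommRing A] [IsDomain A] [CommRing B] [IsDomain B] [Algebra A B]
  [Field F] [Algebra A F] [IsFractionRing A F] [Field E] [Algebra B E] [IsFractionRing B E]
  [Algebra A E] [IsScalarTower A B E] [Algebra F E] [IsScalarTower A F E]

include F E in
variable (F E) in
theorem inj_AB : Function.Injective (algebraMap A B) := by
  have h1 : Function.Injective (algebraMap A E) := by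
    rw [IsScalarTower.algebraMap_eq A F E]
    exact (algebraMap F E).injective.comp (IsFractionRing.injective A F)
  rw [IsScalarTower.algebraMap_eq A B E] at h1
  exact Function.Injective.of_comp h1

theorem isLoc [Module.Finite A B] (hinj : Function.Injective (algebraMap A B)) :
    IsLocalization (Algebra.algebraMapSubmonoid B A⁰) E := by
  have hne : ∀ a : A, a ≠ 0 → algebraMap A B a ≠ 0 := by
    intro a ha h
    apply ha
    apply hinj
    rw [h, map_zero]
  refine ⟨⟨?_, ?_, ?_⟩⟩
  · rintro ⟨_, a, ha, rfl⟩
    have h0 : algebraMap A B a ≠ 0 := hne a (nonZeroDivisors.ne_zero ha)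
    refine isUnit_iff_ne_zero.2 ?_
    show algebraMap B E (algebraMap A B a) ≠ 0
    intro h
    apply h0
    apply IsFractionRing.injective B E
    rw [h, map_zero]
  · intro z
    obtain ⟨r, s, hs, hz⟩ := IsFractionRing.div_surjective (A := B) z
    have halg : IsAlgebraic A s := (Algebra.IsIntegral.isIntegral (R := A) s).isAlgebraic
    obtain ⟨a, ha, t, ht⟩ := halg.exists_nonzero_dvd hs
    refine ⟨(r * t, ⟨algebraMap A B a, a, mem_nonZeroDivisors_of_ne_zero ha, rfl⟩), ?_⟩
    show z * algebraMap B E (algebraMap A B a) = algebraMap B E (r * t)
    have hs0 : algebraMap B E s ≠ 0 := by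
      intro h
      apply nonZeroDivisors.ne_zero hs
      apply IsFractionRing.injective B E
      rw [h, map_zero]
    rw [ht, map_mul, map_mul, ← hz]
    field_simp
  · intro x y hxy
    refine ⟨1, ?_⟩
    rw [IsFractionRing.injective B E hxy]

theorem tr_eq (ι : Type) [Fintype ι] [DecidableEq ι] (b : Module.Basis ι A B) (x : B) :
    Algebra.trace F E (algebraMap B E x) = algebraMap A F (Algebra.trace A B x) := by
  haveI : Module.Finite A B := Module.Finite.of_basis b
  haveI : Module.Free A B := Module.Free.of_basis b
  haveI := isLoc (A := A) (B := B) (E := E) (inj_AB F E)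
  exact Algebra.trace_localization A A⁰ x

theorem discr_eq (ι : Type) [Fintype ι] [DecidableEq ι] (b : Module.Basis ι A B) (e : ι → B) :
    Algebra.discr F (fun i => algebraMap B E (e i)) = algebraMap A F (Algebra.discr A e) := by
  rw [Algebra.discr_def, Algebra.discr_def, RingHom.map_det]
  congr 1
  ext i j
  rw [Algebra.traceMatrix_apply, Algebra.traceForm_apply, RingHom.mapMatrix_apply,
    Matrix.map_apply, Algebra.traceMatrix_apply, Algebra.traceForm_apply, ← map_mul,
    tr_eq ι b]

end general

theorem lat : S_LAT := by
  intro P R V L W K _ _ _ _ _ _ _ _ _ _ _ _ _ _ _ _ _ _ _ _ _ _ _ _ _ _ _ _ _ _ _ _ _ _ _ _ _ _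
    m b bW π δ hb0 hbm hπ hπP hdvd hred hδ
  have injVK : Function.Injective (algebraMap V K) := by
    rw [IsScalarTower.algebraMap_eq V L K]
    exact (algebraMap L K).injective.comp (IsFractionRing.injective V L)
  have injRK : Function.Injective (algebraMap R K) := IsFractionRing.injective R K
  have hπK : algebraMap P K π = algebraMap V K (algebraMap P V π) :=
    IsScalarTower.algebraMap_apply P V K π
  have hπ0 : algebraMap P K π ≠ 0 := by
    rw [hπK]
    intro h
    apply hπ.ne_zero
    apply injVK
    rw [h, map_zero]
  -- elements of the maximal ideal
  have stepA : ∀ z ∈ IsLocalRing.maximalIdeal R, ∃ w : W,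
      algebraMap R K z = algebraMap P K π * algebraMap W K w := by
    intro z hz
    by_cases hz0 : z = 0
    · exact ⟨0, by rw [hz0, map_zero, map_zero, mul_zero]⟩
    obtain ⟨r, hr⟩ := hred
    set J : Ideal R := IsLocalRing.maximalIdeal R ^ r with hJ
    let M : Submodule V K := Submodule.span V ((algebraMap R K) '' (J : Set R))
    have hsmul : ∀ (g : P) (a : R), algebraMap R K (g • a) =
        (algebraMap P V g) • algebraMap R K a := by
      intro g a
      rw [Algebra.smul_def, Algebra.smul_def, map_mul, ← IsScalarTower.algebraMap_apply P R K,
        ← IsScalarTower.algebraMap_apply P V K]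
    have hFG : M.FG := by
      obtain ⟨T, hT⟩ := IsNoetherian.noetherian (J.restrictScalars P)
      classical
      refine ⟨T.image (algebraMap R K), ?_⟩
      apply le_antisymm
      · rw [Submodule.span_le]
        intro x hx
        obtain ⟨a, ha, rfl⟩ := Finset.mem_image.1 (Finset.mem_coe.1 hx)
        refine Submodule.subset_span ⟨a, ?_, rfl⟩
        have : a ∈ J.restrictScalars P := by
          rw [← hT]
          exact Submodule.subset_span ha
        exact this
      · refine Submodule.span_le.2 ?_
        rintro _ ⟨a, ha, rfl⟩
        have ha' : a ∈ Submodule.span P (T : Set R) := by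
          rw [hT]
          exact ha
        induction ha' using Submodule.span_induction with
        | mem x hx => exact Submodule.subset_span (Finset.mem_coe.2 (Finset.mem_image_of_mem _ hx))
        | zero => rw [map_zero]; exact Submodule.zero_mem _
        | add x y hx hy hx' hy' =>
          rw [map_add]
          have h1 : x ∈ J := by
            have : x ∈ J.restrictScalars P := by rw [← hT]; exact hx
            exact this
          have h2 : y ∈ J := by
            have : y ∈ J.restrictScalars P := by rw [← hT]; exact hy
            exact this
          exact Submodule.add_mem _ (hx' h1) (hy' h2)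
        | smul g x hx hx' =>
          have h1 : x ∈ J := by
            have : x ∈ J.restrictScalars P := by rw [← hT]; exact hx
            exact this
          show algebraMap R K (g • x) ∈ _
          rw [hsmul]
          exact Submodule.smul_mem _ _ (hx' h1)
    have hM : M ≠ ⊥ := by
      intro h
      have h1 : algebraMap R K (z ^ r) ∈ M :=
        Submodule.subset_span ⟨z ^ r, Ideal.pow_mem_pow hz r, rfl⟩
      rw [h, Submodule.mem_bot] at h1
      have h2 : z ^ r = 0 := by
        apply injRK
        rw [h1, map_zero]
      exact hz0 (pow_eq_zero_iff (by
        rintro rfl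
        rw [pow_zero] at h2
        exact one_ne_zero h2) |>.1 h2)
    have hQ : ∀ c ∈ (IsLocalRing.maximalIdeal P).map (algebraMap P R) * J,
        algebraMap R K c / algebraMap P K π ∈ M := by
      intro c hc
      refine Submodule.mul_induction_on hc ?_ ?_
      · intro i hi j hj
        have hi' : i ∈ Submodule.span R ((algebraMap P R) '' (IsLocalRing.maximalIdeal P : Set P)) :=
          hi
        clear hc
        induction hi' using Submodule.span_induction generalizing j with
        | mem x hx =>
          obtain ⟨g, hg, rfl⟩ := hx
          obtain ⟨v, hv⟩ := hdvd g hg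
          have e : algebraMap R K (algebraMap P R g * j) / algebraMap P K π =
              v • algebraMap R K j := by
            rw [map_mul, ← IsScalarTower.algebraMap_apply P R K,
              IsScalarTower.algebraMap_apply P V K g, hv, map_mul, ← hπK, Algebra.smul_def]
            field_simp
          rw [e]
          exact Submodule.smul_mem _ _ (Submodule.subset_span ⟨j, hj, rfl⟩)
        | zero => rw [zero_mul, map_zero, zero_div]; exact Submodule.zero_mem _
        | add x y hx hy hx' hy' =>
          rw [add_mul, map_add, add_div]
          exact Submodule.add_mem _ (hx' hx j hj) (hy' hy j hj)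
        | smul a x hx hx' =>
          have e : a • x * j = x * (a * j) := by rw [smul_eq_mul]; ring
          rw [e]
          exact hx' hx (a * j) (Ideal.mul_mem_left _ _ hj)
      · intro x y hx hy
        rw [map_add, add_div]
        exact Submodule.add_mem _ hx hy
    have hint : IsIntegral V (algebraMap R K z / algebraMap P K π) := by
      refine isIntegral_of_smul_mem_submodule M hM hFG _ ?_
      intro n hn
      induction hn using Submodule.span_induction with
      | mem x hx =>
        obtain ⟨a, ha, rfl⟩ := hx
        have e : (algebraMap R K z / algebraMap P K π) • algebraMap R K a =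
            algebraMap R K (z * a) / algebraMap P K π := by
          rw [smul_eq_mul, map_mul]
          ring
        rw [e]
        apply hQ
        rw [← hr, pow_succ']
        exact Ideal.mul_mem_mul hz ha
      | zero => rw [smul_zero]; exact Submodule.zero_mem _
      | add x y _ _ hx hy => rw [smul_add]; exact Submodule.add_mem _ hx hy
      | smul v x _ hx =>
        rw [smul_comm]
        exact Submodule.smul_mem _ _ hx
    obtain ⟨w, hw⟩ := (IsIntegralClosure.isIntegral_iff (A := W) (R := V) (B := K)).1 hint
    refine ⟨w, ?_⟩
    rw [hw]
    field_simp
  have hRint : ∀ f : R, ∃ w : W, algebraMap R K f = algebraMap W K w := by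
    intro f
    have h1 : IsIntegral P f := Algebra.IsIntegral.isIntegral f
    have h2 : IsIntegral P (algebraMap R K f) := h1.map (IsScalarTower.toAlgHom P R K)
    have h3 : IsIntegral V (algebraMap R K f) := h2.tower_top
    obtain ⟨w, hw⟩ := (IsIntegralClosure.isIntegral_iff (A := W) (R := V) (B := K)).1 h3
    exact ⟨w, hw.symm⟩
  refine ⟨?_, ?_⟩
  · intro N
    induction N with
    | zero =>
      intro f _
      obtain ⟨w, hw⟩ := hRint f
      exact ⟨w, by rw [pow_zero, one_mul]; exact hw⟩
    | succ N ih =>
      intro f hf
      rw [pow_succ] at hf
      refine Submodule.mul_induction_on hf ?_ ?_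
      · intro x hx y hy
        obtain ⟨w, hw⟩ := ih x hx
        obtain ⟨w', hw'⟩ := stepA y hy
        refine ⟨w * w', ?_⟩
        rw [map_mul, hw, hw', map_mul, pow_succ]
        ring
      · rintro x y ⟨w, hw⟩ ⟨w', hw'⟩
        refine ⟨w + w', ?_⟩
        rw [map_add, hw, hw', map_add, mul_add]
  · choose w hw using fun j : Fin m => stepA (b j.succ) (hbm j)
    let e : Fin (m + 1) → W := Fin.cons 1 w
    let D : Fin (m + 1) → V := Fin.cons 1 (fun _ => algebraMap P V π)
    let D' : Fin (m + 1) → V := Fin.cons (algebraMap P V π) (fun _ => 1)
    have he : ∀ i, algebraMap R K (b i) = algebraMap W K (e i) * algebraMap V K (D i) := by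
      intro i
      refine Fin.cases ?_ (fun j => ?_) i
      · show _ = algebraMap W K 1 * algebraMap V K 1
        rw [hb0, map_one, map_one, map_one, one_mul]
      · show _ = algebraMap W K (w j) * algebraMap V K (algebraMap P V π)
        rw [hw j, hπK, mul_comm]
    have he' : ∀ i, algebraMap P K π * algebraMap W K (e i) =
        algebraMap V K (D' i) * algebraMap R K (b i) := by
      intro i
      refine Fin.cases ?_ (fun j => ?_) i
      · show _ * algebraMap W K 1 = algebraMap V K (algebraMap P V π) * _
        rw [hb0, map_one, map_one, hπK]
      · show _ * algebraMap W K (w j) = algebraMap V K 1 * _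
        rw [hw j, map_one, one_mul]
    set A : Matrix (Fin (m + 1)) (Fin (m + 1)) V := bW.toMatrix e with hA
    have hbe : (bW : Fin (m + 1) → W) ᵥ* A.map (algebraMap V W) = e :=
      Module.Basis.toMatrix_map_vecMul bW e
    refine ⟨A.det, ?_, ?_⟩
    · apply IsFractionRing.injective V L
      rw [← IsScalarTower.algebraMap_apply P V L, ← discr_eq (F := L) (E := K) _ b]
      have h1 : (fun i => algebraMap R K (b i)) = (fun i => algebraMap W K (e i)) ᵥ*
          (Matrix.diagonal fun i => algebraMap V L (D i)).map (algebraMap L K) := by
        funext i
        rw [Matrix.diagonal_map (map_zero _), Matrix.vecMul_diagonal, he i]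
        show _ = _ * algebraMap L K (algebraMap V L (D i))
        rw [← IsScalarTower.algebraMap_apply V L K]
      rw [h1, Algebra.discr_of_matrix_vecMul, discr_eq (F := L) (E := K) _ bW e,
        Matrix.det_diagonal]
      have h2 : Algebra.discr V e = A.det ^ 2 * Algebra.discr V bW := by
        rw [← Algebra.discr_of_matrix_vecMul, hbe]
      have h3 : ∏ i, algebraMap V L (D i) = algebraMap V L (algebraMap P V π ^ m) := by
        rw [← map_prod]
        congr 1
        rw [Fin.prod_univ_succ]
        show 1 * ∏ _ : Fin m, algebraMap P V π = _
        rw [one_mul, Finset.prod_const, Finset.card_univ, Fintype.card_fin]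
      rw [h2, h3]
      simp only [map_mul, map_pow]
      ring
    · intro y hy
      have h4 : ∀ x : W, ∃ c : Fin (m + 1) → V, algebraMap V W A.det * x = ∑ j, c j • e j := by
        intro x
        have h5 : e ᵥ* (A.adjugate).map (algebraMap V W) =
            fun k => algebraMap V W A.det * bW k := by
          rw [← hbe, Matrix.vecMul_vecMul, ← Matrix.map_mul, Matrix.mul_adjugate]
          have h6 : (A.det • (1 : Matrix (Fin (m + 1)) (Fin (m + 1)) V)).map (algebraMap V W) =
              Matrix.diagonal fun _ => algebraMap V W A.det := by
            rw [← Matrix.diagonal_one, ← Matrix.diagonal_smul, Matrix.diagonal_map (map_zero _)]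
            congr 1
            funext i
            simp
          rw [h6]
          funext k
          rw [Matrix.vecMul_diagonal, mul_comm]
        refine ⟨fun j => ∑ k, bW.repr x k * A.adjugate j k, ?_⟩
        have h7 : x = ∑ k, bW.repr x k • bW k := (bW.sum_repr x).symm
        calc algebraMap V W A.det * x
            = ∑ k, algebraMap V W (bW.repr x k) * (algebraMap V W A.det * bW k) := by
              conv_lhs => rw [h7]
              rw [Finset.mul_sum]
              refine Finset.sum_congr rfl fun k _ => ?_
              rw [Algebra.smul_def]
              ring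
          _ = ∑ k, algebraMap V W (bW.repr x k) *
                ∑ j, e j * algebraMap V W (A.adjugate j k) := by
              refine Finset.sum_congr rfl fun k _ => ?_
              have := congrFun h5 k
              rw [← this]
              rfl
          _ = ∑ j, (∑ k, bW.repr x k * A.adjugate j k) • e j := by
              simp only [Finset.mul_sum]
              rw [Finset.sum_comm]
              refine Finset.sum_congr rfl fun j _ => ?_
              rw [Algebra.smul_def, map_sum, Finset.sum_mul]
              refine Finset.sum_congr rfl fun k _ => ?_
              rw [map_mul]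
              ring
      obtain ⟨u, hu⟩ := (hδ (y * algebraMap P K π * algebraMap V K A.det)).1 (by
        intro x
        obtain ⟨c, hc⟩ := h4 x
        choose g hg using fun j : Fin (m + 1) => hy (b j)
        refine ⟨∑ j, c j * D' j * algebraMap P V (g j), ?_⟩
        have h8 : y * algebraMap P K π * algebraMap V K A.det * algebraMap W K x =
            ∑ j, algebraMap L K (algebraMap V L (c j * D' j)) * (y * algebraMap R K (b j)) := by
          have h9 : algebraMap V K A.det * algebraMap W K x =
              ∑ j, algebraMap V K (c j) * algebraMap W K (e j) := by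
            rw [IsScalarTower.algebraMap_apply V W K, ← map_mul, hc, map_sum]
            refine Finset.sum_congr rfl fun j _ => ?_
            rw [Algebra.smul_def, map_mul, ← IsScalarTower.algebraMap_apply V W K]
          rw [mul_assoc (y * _), h9, Finset.mul_sum]
          refine Finset.sum_congr rfl fun j _ => ?_
          rw [← IsScalarTower.algebraMap_apply V L K, map_mul]
          linear_combination (y * algebraMap V K (c j)) * he' j
        rw [h8, map_sum, map_sum]
        refine Finset.sum_congr rfl fun j _ => ?_
        have h10 : Algebra.trace L K (algebraMap L K (algebraMap V L (c j * D' j)) *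
            (y * algebraMap R K (b j))) = algebraMap V L (c j * D' j) *
            Algebra.trace L K (y * algebraMap R K (b j)) := by
          rw [← Algebra.smul_def, map_smul, smul_eq_mul]
        rw [h10, ← hg j, map_mul, IsScalarTower.algebraMap_apply P V L])
      exact ⟨u, hu⟩

end Pool.Agent.H407.FTLAT
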