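import Pool.Agent.H2.PD.Stm

namespace Pool.Agent.H407.PD

open Pool.Agent.H2.PD

theorem nat_rpow_le {x u r s : ℕ} (hs : 0 < s) (h : x ^ r ≤ u ^ s) :
    (x : ℝ) ^ ((r : ℝ) / s) ≤ u := by
  have hs' : (s : ℝ) ≠ 0 := by positivity
  have h1 : ((x : ℝ) ^ ((r : ℝ) / s)) ^ s = (x : ℝ) ^ r := by
    rw [← Real.rpow_natCast, ← Real.rpow_mul (by positivity), div_mul_cancel₀ _ hs',
      Real.rpow_natCast]
  have h2 : ((x : ℝ) ^ ((r : ℝ) / s)) ^ s ≤ (u : ℝ) ^ s := by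
    rw [h1]; exact_mod_cast h
  exact le_of_pow_le_pow_left₀ hs.ne' (by positivity) h2

theorem le_nat_rpow {x l r s : ℕ} (hs : 0 < s) (h : l ^ s ≤ x ^ r) :
    (l : ℝ) ≤ (x : ℝ) ^ ((r : ℝ) / s) := by
  have hs' : (s : ℝ) ≠ 0 := by positivity
  have h1 : ((x : ℝ) ^ ((r : ℝ) / s)) ^ s = (x : ℝ) ^ r := by
    rw [← Real.rpow_natCast, ← Real.rpow_mul (by positivity), div_mul_cancel₀ _ hs',
      Real.rpow_natCast]
  have h2 : (l : ℝ) ^ s ≤ ((x : ℝ) ^ ((r : ℝ) / s)) ^ s := by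
    rw [h1]; exact_mod_cast h
  exact le_of_pow_le_pow_left₀ hs.ne' (by positivity) h2

theorem Np_anti (x y : ℝ) {p q : ℝ} (hp : 0 < p) (hpq : p ≤ q) : Np q x y ≤ Np p x y := by
  have h := NNReal.rpow_add_rpow_le (Real.nnabs x) (Real.nnabs y) hp hpq
  have h' : (((Real.nnabs x ^ q + Real.nnabs y ^ q) ^ (1 / q) : NNReal) : ℝ) ≤
      ((Real.nnabs x ^ p + Real.nnabs y ^ p) ^ (1 / p) : NNReal) := NNReal.coe_le_coe.2 h
  rw [NNReal.coe_rpow, NNReal.coe_rpow, NNReal.coe_add, NNReal.coe_add, NNReal.coe_rpow,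
    NNReal.coe_rpow, NNReal.coe_rpow, NNReal.coe_rpow, Real.coe_nnabs, Real.coe_nnabs] at h'
  exact h'

theorem itv : S_itv := by
  intro x y m M r1 r2 s ux uy lx ly hs hsr hr hx hy hM hlx hly hm p hp1 hp2
  have hsR : (0 : ℝ) < s := by exact_mod_cast hs
  have hr1 : (0 : ℝ) < r1 := by exact_mod_cast (lt_of_lt_of_le hs hsr)
  have hr2 : (0 : ℝ) < r2 := by exact_mod_cast (lt_of_lt_of_le (lt_of_lt_of_le hs hsr) hr)
  have hq1 : (0 : ℝ) < (r1 : ℝ) / s := by positivity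
  have hp0 : 0 < p := lt_of_lt_of_le hq1 hp1
  have hax : |(x : ℝ)| = (x.natAbs : ℝ) := by
    rw [Nat.cast_natAbs, Int.cast_abs]
  have hay : |(y : ℝ)| = (y.natAbs : ℝ) := by
    rw [Nat.cast_natAbs, Int.cast_abs]
  constructor
  · refine le_trans ?_ (Np_anti (x : ℝ) (y : ℝ) hp0 hp2)
    unfold Np
    rw [hax, hay]
    have h1 := le_nat_rpow hs hlx
    have h2 := le_nat_rpow hs hly
    have h3 : ((lx : ℝ) + ly) ^ (1 / ((r2 : ℝ) / s)) ≤
        ((x.natAbs : ℝ) ^ ((r2 : ℝ) / s) + (y.natAbs : ℝ) ^ ((r2 : ℝ) / s)) ^ (1 / ((r2 : ℝ) / s)) :=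
      Real.rpow_le_rpow (by positivity) (add_le_add h1 h2) (by positivity)
    refine le_trans ?_ h3
    rw [one_div_div]
    have hr2' : 0 < r2 := lt_of_lt_of_le (lt_of_lt_of_le hs hsr) hr
    have h4 := le_nat_rpow (x := lx + ly) (l := m) (r := s) (s := r2) hr2' hm
    push_cast at h4
    exact h4
  · refine le_trans (Np_anti (x : ℝ) (y : ℝ) hq1 hp1) ?_
    unfold Np
    rw [hax, hay]
    have h1 := nat_rpow_le hs hx
    have h2 := nat_rpow_le hs hy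
    have h3 : ((x.natAbs : ℝ) ^ ((r1 : ℝ) / s) + (y.natAbs : ℝ) ^ ((r1 : ℝ) / s)) ^ (1 / ((r1 : ℝ) / s)) ≤
        ((ux : ℝ) + uy) ^ (1 / ((r1 : ℝ) / s)) :=
      Real.rpow_le_rpow (by positivity) (add_le_add h1 h2) (by positivity)
    refine le_trans h3 ?_
    rw [one_div_div]
    have hr1' : 0 < r1 := lt_of_lt_of_le hs hsr
    have h4 := nat_rpow_le (x := ux + uy) (u := M) (r := s) (s := r1) hr1' hM
    push_cast at h4
    exact h4

theorem num_ineq : (2 : ℝ) ^ (82 / 207 : ℝ) ≤ 1316 / 1000 := by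
  have h1 : ((2 : ℝ) ^ (82 / 207 : ℝ)) ^ 207 = (2 : ℝ) ^ 82 := by
    rw [← Real.rpow_natCast, ← Real.rpow_mul (by positivity)]
    norm_num
  have h2 : ((2 : ℝ) ^ (82 / 207 : ℝ)) ^ 207 ≤ (1316 / 1000 : ℝ) ^ 207 := by
    rw [h1]; norm_num
  exact le_of_pow_le_pow_left₀ (by norm_num) (by positivity) h2

theorem two : S_two := by
  intro a b hab p hp1 hp2
  have hp0 : 0 < p := by linarith
  have h2p : (0 : ℝ) < (2 : ℝ) ^ (1 / p) := by positivity
  have key : Np p a b = (2 : ℝ) ^ (1 / p) ∨ Np p a b = 2 := by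
    unfold Np
    rcases hab with ⟨ha, hb⟩ | ⟨ha, hb⟩ | ⟨ha, hb⟩
    · left
      have ha' : |(a : ℝ)| = 1 := by exact_mod_cast ha
      have hb' : |(b : ℝ)| = 1 := by exact_mod_cast hb
      rw [ha', hb', Real.one_rpow]
      norm_num
    · right
      have ha' : |(a : ℝ)| = 2 := by exact_mod_cast ha
      rw [ha', hb, Int.cast_zero, abs_zero, Real.zero_rpow hp0.ne', add_zero, one_div,
        Real.rpow_rpow_inv (by norm_num) hp0.ne']
    · right
      have hb' : |(b : ℝ)| = 2 := by exact_mod_cast hb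
      rw [hb', ha, Int.cast_zero, abs_zero, Real.zero_rpow hp0.ne', zero_add, one_div,
        Real.rpow_rpow_inv (by norm_num) hp0.ne']
  rcases key with h | h
  · rw [h]
    exact ⟨le_refl _, by nlinarith⟩
  · rw [h]
    constructor
    · calc (2 : ℝ) ^ (1 / p) ≤ (2 : ℝ) ^ (1 : ℝ) := by
            apply Real.rpow_le_rpow_of_exponent_le (by norm_num)
            rw [div_le_one hp0]; exact hp1
        _ = 2 := Real.rpow_one 2
    · have h1 : (2 : ℝ) ^ (125 / 207 : ℝ) ≤ (2 : ℝ) ^ (1 / p) := by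
        apply Real.rpow_le_rpow_of_exponent_le (by norm_num)
        rw [div_le_div_iff₀ (by norm_num) hp0]
        linarith
      have h2 : (2 : ℝ) = (2 : ℝ) ^ (82 / 207 : ℝ) * (2 : ℝ) ^ (125 / 207 : ℝ) := by
        rw [← Real.rpow_add (by norm_num)]
        norm_num
      calc (2 : ℝ) = (2 : ℝ) ^ (82 / 207 : ℝ) * (2 : ℝ) ^ (125 / 207 : ℝ) := h2
        _ ≤ 1316 / 1000 * (2 : ℝ) ^ (1 / p) :=
          mul_le_mul num_ineq h1 (by positivity) (by norm_num)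

end Pool.Agent.H407.PD
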