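import Pool.Agent.H252.EL.Iface

/-!
# The numbers of the family
-/

set_option autoImplicit false

noncomputable section

namespace Pool.Agent.H407.ELNUM

open Filter Topology
open Pool.Agent.H252.EL

/-! ## natural numbers -/

theorem t_ge (i : ℕ) : 8 ≤ 2 * (i + 2) ^ 2 := by
  have h : 2 ^ 2 ≤ (i + 2) ^ 2 := Nat.pow_le_pow_left (by omega) 2
  omega

theorem C_pos (i : ℕ) : 1 ≤ 4 ^ (i + 1) * (i + 1) := Nat.mul_pos (by positivity) (by omega)

theorem C_le_cc (ω : ℕ → Bool) (i : ℕ) : 4 ^ (i + 1) * (i + 1) ≤ cc ω i := by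
  unfold cc
  exact Nat.mul_le_mul_right _ (Nat.le_add_right _ _)

theorem cc_pos (ω : ℕ → Bool) (i : ℕ) : 1 ≤ cc ω i := (C_pos i).trans (C_le_cc ω i)

theorem mm_pos (i : ℕ) : 1 ≤ mm i := by
  unfold mm
  have h := t_ge i
  exact Nat.mul_pos (by omega) (C_pos i)

theorem mm_lt (ω : ℕ → Bool) (i : ℕ) : mm i + cc ω i + 1 ≤ SS ω i := by
  unfold mm SS
  obtain ⟨t, ht⟩ := Nat.exists_eq_add_of_le (show 2 ≤ 2 * (i + 2) ^ 2 by have := t_ge i; omega)
  have hC := C_le_cc ω i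
  have hc := cc_pos ω i
  rw [ht, Nat.add_sub_cancel_left]
  have h1 : t * (4 ^ (i + 1) * (i + 1)) ≤ t * cc ω i := Nat.mul_le_mul_left _ hC
  have h2 : (2 + t) * cc ω i = t * cc ω i + 2 * cc ω i := by ring
  omega

theorem mm_le (ω : ℕ → Bool) (i : ℕ) : mm i ≤ SS ω i := by have := mm_lt ω i; omega

theorem SS_pos (ω : ℕ → Bool) (i : ℕ) : 1 ≤ SS ω i := by have := mm_lt ω i; omega

theorem cc_mono (ω : ℕ → Bool) (i : ℕ) : cc ω i ≤ cc (fun _ => true) i := by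
  unfold cc
  refine Nat.mul_le_mul_right _ (Nat.add_le_add_left ?_ _)
  show (if ω i = true then 1 else 0) ≤ 1
  split_ifs <;> simp

theorem SS_mono (ω : ℕ → Bool) (i : ℕ) : SS ω i ≤ SS (fun _ => true) i :=
  Nat.mul_le_mul_left _ (cc_mono ω i)

theorem sz_mono (ω : ℕ → Bool) (i : ℕ) : sz (SS ω) i ≤ sz (SS fun _ => true) i := by
  induction i with
  | zero => exact le_refl _
  | succ i ih => exact Nat.mul_le_mul ih (SS_mono ω i)

theorem sz_pos (ω : ℕ → Bool) (i : ℕ) : 1 ≤ sz (SS ω) i := by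
  induction i with
  | zero => exact le_refl _
  | succ i ih => exact Nat.mul_pos ih (SS_pos ω i)

theorem dm_pos (i : ℕ) (b : Bool) : 1 ≤ dm mm ee i b := by
  induction i with
  | zero => exact le_refl _
  | succ i ih =>
    show 1 ≤ mm i * dm mm ee i b + ee i b
    have := Nat.mul_pos (mm_pos i) ih
    omega

theorem dm_le (i : ℕ) : dm mm ee i false ≤ dm mm ee i true := by
  induction i with
  | zero => exact le_refl _
  | succ i ih =>
    show mm i * dm mm ee i false + 0 ≤ mm i * dm mm ee i true + ee i true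
    have := Nat.mul_le_mul_left (mm i) ih
    omega

theorem dm_le_sz (ω : ℕ → Bool) (i : ℕ) : dm mm ee i false ≤ sz (SS ω) i := by
  induction i with
  | zero => exact le_refl _
  | succ i ih =>
    show mm i * dm mm ee i false + 0 ≤ sz (SS ω) i * SS ω i
    rw [mul_comm (sz (SS ω) i)]
    exact Nat.mul_le_mul (mm_le ω i) ih

theorem dm_true (ω : ℕ → Bool) (R i : ℕ) (hi : R ≤ i) :
    R * sz (SS ω) (i + 1) + 1 ≤ dm mm ee (i + 1) true := by
  show R * sz (SS ω) (i + 1) + 1 ≤ mm i * dm mm ee i true + (i + 1) * sz (SS fun _ => true) (i + 1)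
  have h1 : R * sz (SS ω) (i + 1) ≤ (i + 1) * sz (SS fun _ => true) (i + 1) :=
    Nat.mul_le_mul (by omega) (sz_mono ω (i + 1))
  have h2 : 1 ≤ mm i * dm mm ee i true := Nat.mul_pos (mm_pos i) (dm_pos i true)
  omega

/-! ## the ratios -/

/-- the ratio -/
def rh (ω : ℕ → Bool) (i : ℕ) : ℝ := (mm i : ℝ) / SS ω i

/-- the perturbation -/
def w (ω : ℕ → Bool) (i : ℕ) : ℝ := if ω i then 1 else 0

theorem w_nonneg (ω : ℕ → Bool) (i : ℕ) : 0 ≤ w ω i := by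
  unfold w
  split_ifs <;> norm_num

theorem w_le (ω : ℕ → Bool) (i : ℕ) : w ω i ≤ 1 := by
  unfold w
  split_ifs <;> norm_num

theorem cc_cast (ω : ℕ → Bool) (i : ℕ) :
    (cc ω i : ℝ) = ((4 : ℝ) ^ (i + 1) + w ω i) * ((i : ℝ) + 1) := by
  unfold cc w
  push_cast
  split_ifs <;> norm_num

theorem mm_cast (i : ℕ) :
    (mm i : ℝ) = (2 * ((i : ℝ) + 2) ^ 2 - 2) * ((4 : ℝ) ^ (i + 1) * ((i : ℝ) + 1)) := by
  unfold mm
  rw [Nat.cast_mul, Nat.cast_sub (by have := t_ge i; omega)]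
  push_cast
  ring

theorem rh_eq (ω : ℕ → Bool) (i : ℕ) :
    rh ω i = (1 - 1 / ((i : ℝ) + 2) ^ 2) * ((4 : ℝ) ^ (i + 1) / ((4 : ℝ) ^ (i + 1) + w ω i)) := by
  unfold rh SS
  rw [Nat.cast_mul, cc_cast, mm_cast]
  push_cast
  have hP : (0 : ℝ) < (4 : ℝ) ^ (i + 1) := by positivity
  have hw := w_nonneg ω i
  have hPw : (4 : ℝ) ^ (i + 1) + w ω i ≠ 0 := by positivity
  have ha : ((i : ℝ) + 2) ≠ 0 := by positivity
  have hb : ((i : ℝ) + 1) ≠ 0 := by positivity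
  field_simp

theorem rh_pos (ω : ℕ → Bool) (i : ℕ) : 0 < rh ω i := by
  have h1 : (0 : ℝ) < mm i := by exact_mod_cast mm_pos i
  have h2 : (0 : ℝ) < SS ω i := by exact_mod_cast SS_pos ω i
  exact div_pos h1 h2

theorem rh_le (ω : ℕ → Bool) (i : ℕ) : rh ω i ≤ 1 := by
  have h2 : (0 : ℝ) < SS ω i := by exact_mod_cast SS_pos ω i
  unfold rh
  rw [div_le_one h2]
  exact_mod_cast mm_le ω i

theorem one_sub_rh (ω : ℕ → Bool) (i : ℕ) :
    1 - rh ω i ≤ 1 / ((i : ℝ) + 2) ^ 2 + (1 / 4 : ℝ) ^ (i + 1) := by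
  rw [rh_eq]
  have hP : (0 : ℝ) < (4 : ℝ) ^ (i + 1) := by positivity
  have hw := w_nonneg ω i
  have hw1 := w_le ω i
  have h1 : 1 - (1 / 4 : ℝ) ^ (i + 1) ≤ (4 : ℝ) ^ (i + 1) / ((4 : ℝ) ^ (i + 1) + w ω i) := by
    rw [le_div_iff₀ (by positivity)]
    have h2 : (1 / 4 : ℝ) ^ (i + 1) * (4 : ℝ) ^ (i + 1) = 1 := by
      rw [← mul_pow]; norm_num
    have h3 : (0 : ℝ) ≤ (1 / 4 : ℝ) ^ (i + 1) := by positivity
    nlinarith
  have h4 : (4 : ℝ) ^ (i + 1) / ((4 : ℝ) ^ (i + 1) + w ω i) ≤ 1 := by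
    rw [div_le_one (by positivity)]
    linarith
  have h5 : (0 : ℝ) ≤ 1 / ((i : ℝ) + 2) ^ 2 := by positivity
  have h6 : (0 : ℝ) ≤ (1 / 4 : ℝ) ^ (i + 1) := by positivity
  nlinarith

theorem summable_rh (ω : ℕ → Bool) : Summable fun i => 1 - rh ω i := by
  refine Summable.of_nonneg_of_le (fun i => by have := rh_le ω i; linarith)
    (fun i => one_sub_rh ω i) (Summable.add ?_ ?_)
  · have h := (summable_nat_add_iff 2).2 (Real.summable_one_div_nat_pow.2 (show 1 < 2 by norm_num))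
    refine h.congr fun i => ?_
    push_cast
    rfl
  · exact (summable_nat_add_iff 1).2 (summable_geometric_of_lt_one (by norm_num) (by norm_num))

theorem prod_one_sub (v : ℕ → ℝ) (h0 : ∀ l, 0 ≤ v l) (h1 : ∀ l, v l ≤ 1) (r : ℕ) :
    1 - ∑ l ∈ Finset.range r, v l ≤ ∏ l ∈ Finset.range r, (1 - v l) ∧
      ∏ l ∈ Finset.range r, (1 - v l) ≤ 1 ∧ 0 ≤ ∏ l ∈ Finset.range r, (1 - v l) := by
  induction r with
  | zero => simp
  | succ r ih =>
    rw [Finset.sum_range_succ, Finset.prod_range_succ]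
    obtain ⟨h2, h3, h4⟩ := ih
    have h5 := h0 r
    have h6 := h1 r
    refine ⟨?_, ?_, mul_nonneg h4 (by linarith)⟩
    · nlinarith
    · nlinarith

theorem tail_prod (ω : ℕ → Bool) (δ : ℝ) (hδ : 0 < δ) :
    ∀ᶠ i in atTop, ∀ r, 1 - δ ≤ ∏ l ∈ Finset.range r, rh ω (i + l) := by
  have hs := summable_rh ω
  have h1 := tendsto_sum_nat_add fun i => 1 - rh ω i
  filter_upwards [h1.eventually (gt_mem_nhds hδ)] with i hi r
  have h2 := (prod_one_sub (fun l => 1 - rh ω (i + l)) (fun l => by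
    have := rh_le ω (i + l); linarith) (fun l => by have := rh_pos ω (i + l); linarith) r).1
  simp only [sub_sub_cancel] at h2
  have hs' : Summable fun k => 1 - rh ω (k + i) := (summable_nat_add_iff i).2 hs
  have h3 : ∑ l ∈ Finset.range r, (1 - rh ω (i + l)) ≤ ∑' k, (1 - rh ω (k + i)) := by
    have h4 := hs'.sum_le_tsum (Finset.range r) fun k _ => by
      have := rh_le ω (k + i); linarith
    refine le_trans (le_of_eq ?_) h4
    exact Finset.sum_congr rfl fun l _ => by rw [add_comm i l]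
  linarith

/-- the products -/
def xx (ω : ℕ → Bool) (i : ℕ) : ℝ := ∏ l ∈ Finset.range i, rh ω l

theorem xx_succ (ω : ℕ → Bool) (i : ℕ) : xx ω (i + 1) = xx ω i * rh ω i :=
  Finset.prod_range_succ _ _

theorem xx_pos (ω : ℕ → Bool) (i : ℕ) : 0 < xx ω i := Finset.prod_pos fun l _ => rh_pos ω l

theorem xx_anti (ω : ℕ → Bool) : Antitone (xx ω) := by
  refine antitone_nat_of_succ_le fun i => ?_
  rw [xx_succ]
  have h1 := xx_pos ω i
  have h2 := rh_le ω i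
  nlinarith

theorem dm_eq (ω : ℕ → Bool) (i : ℕ) : (dm mm ee i false : ℝ) = xx ω i * sz (SS ω) i := by
  induction i with
  | zero =>
    show ((1 : ℕ) : ℝ) = xx ω 0 * ((1 : ℕ) : ℝ)
    simp [xx]
  | succ i ih =>
    show ((mm i * dm mm ee i false + 0 : ℕ) : ℝ) = xx ω (i + 1) * ((sz (SS ω) i * SS ω i : ℕ) : ℝ)
    have h2 : (SS ω i : ℝ) ≠ 0 := by
      have : (0 : ℝ) < SS ω i := by exact_mod_cast SS_pos ω i
      exact this.ne'
    rw [xx_succ]
    push_cast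
    rw [ih]
    unfold rh
    field_simp
    ring

theorem xx_lim (ω : ℕ → Bool) : ∃ L : ℝ, 0 < L ∧ Tendsto (xx ω) atTop (𝓝 L) ∧ ∀ i, L ≤ xx ω i := by
  have hb : BddBelow (Set.range (xx ω)) := ⟨0, by
    rintro _ ⟨i, rfl⟩
    exact (xx_pos ω i).le⟩
  have hl := tendsto_atTop_ciInf (xx_anti ω) hb
  refine ⟨⨅ i, xx ω i, ?_, hl, fun i => ciInf_le hb i⟩
  obtain ⟨i, hi⟩ := (tail_prod ω (1 / 2) (by norm_num)).exists
  have h1 : ∀ r, xx ω i / 2 ≤ xx ω (i + r) := by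
    intro r
    have h2 : xx ω (i + r) = xx ω i * ∏ l ∈ Finset.range r, rh ω (i + l) :=
      Finset.prod_range_add _ _ _
    rw [h2]
    have h3 := hi r
    have h4 := xx_pos ω i
    nlinarith
  have h5 : xx ω i / 2 ≤ ⨅ i, xx ω i := by
    refine ge_of_tendsto hl ?_
    filter_upwards [eventually_ge_atTop i] with k hk
    obtain ⟨r, rfl⟩ := Nat.exists_eq_add_of_le hk
    exact h1 r
  have h6 := xx_pos ω i
  linarith

/-! ## comparison -/

theorem rh_cmp (ω ω' : ℕ → Bool) (i : ℕ) : (1 - (1 / 4 : ℝ) ^ (i + 1)) * rh ω i ≤ rh ω' i := by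
  rw [rh_eq, rh_eq]
  have hP : (0 : ℝ) < (4 : ℝ) ^ (i + 1) := by positivity
  have hw := w_nonneg ω i
  have hw' := w_nonneg ω' i
  have hw1 := w_le ω' i
  have h0 : (0 : ℝ) ≤ 1 - 1 / ((i : ℝ) + 2) ^ 2 := by
    rw [sub_nonneg, div_le_one (by positivity)]
    have : (0 : ℝ) ≤ i := Nat.cast_nonneg i
    nlinarith
  have h1 : 1 - (1 / 4 : ℝ) ^ (i + 1) ≤ (4 : ℝ) ^ (i + 1) / ((4 : ℝ) ^ (i + 1) + w ω' i) := by
    rw [le_div_iff₀ (by positivity)]
    have h2 : (1 / 4 : ℝ) ^ (i + 1) * (4 : ℝ) ^ (i + 1) = 1 := by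
      rw [← mul_pow]; norm_num
    have h3 : (0 : ℝ) ≤ (1 / 4 : ℝ) ^ (i + 1) := by positivity
    nlinarith
  have h4 : (4 : ℝ) ^ (i + 1) / ((4 : ℝ) ^ (i + 1) + w ω i) ≤ 1 := by
    rw [div_le_one (by positivity)]
    linarith
  have h5 : 0 ≤ (4 : ℝ) ^ (i + 1) / ((4 : ℝ) ^ (i + 1) + w ω i) := by positivity
  have h6 : (0 : ℝ) ≤ 1 - (1 / 4 : ℝ) ^ (i + 1) := by
    rw [sub_nonneg]
    exact pow_le_one₀ (by norm_num) (by norm_num)
  calc (1 - (1 / 4 : ℝ) ^ (i + 1)) * ((1 - 1 / ((i : ℝ) + 2) ^ 2) *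
        ((4 : ℝ) ^ (i + 1) / ((4 : ℝ) ^ (i + 1) + w ω i)))
      = (1 - 1 / ((i : ℝ) + 2) ^ 2) * ((1 - (1 / 4 : ℝ) ^ (i + 1)) *
        ((4 : ℝ) ^ (i + 1) / ((4 : ℝ) ^ (i + 1) + w ω i))) := by ring
    _ ≤ (1 - 1 / ((i : ℝ) + 2) ^ 2) * ((1 - (1 / 4 : ℝ) ^ (i + 1)) * 1) :=
        mul_le_mul_of_nonneg_left (mul_le_mul_of_nonneg_left h4 h6) h0
    _ ≤ _ := by
        rw [mul_one]
        exact mul_le_mul_of_nonneg_left h1 h0

theorem rh_diff {ω ω' : ℕ → Bool} {i : ℕ} (h : ω i = true) (h' : ω' i = false) :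
    rh ω' i = (1 + (1 / 4 : ℝ) ^ (i + 1)) * rh ω i := by
  rw [rh_eq, rh_eq]
  have hP : (0 : ℝ) < (4 : ℝ) ^ (i + 1) := by positivity
  have hw : w ω i = 1 := by unfold w; rw [h]; rfl
  have hw' : w ω' i = 0 := by unfold w; rw [h']; rfl
  rw [hw, hw', add_zero, div_self hP.ne', one_div_pow]
  field_simp

theorem rh_same {ω ω' : ℕ → Bool} {i : ℕ} (h : ω i = ω' i) : rh ω' i = rh ω i := by
  rw [rh_eq, rh_eq]
  have hw : w ω i = w ω' i := by unfold w; rw [h]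
  rw [hw]

theorem xx_cmp {ω ω' : ℕ → Bool} {i₀ : ℕ} (h0 : ∀ l < i₀, ω l = ω' l) (h : ω i₀ = true)
    (h' : ω' i₀ = false) (k : ℕ) :
    (1 + (1 / 4 : ℝ) ^ (i₀ + 1)) * (1 - (1 / 4 : ℝ) ^ (i₀ + 1) / 3 +
      (1 / 4 : ℝ) ^ (i₀ + 1 + k) / 3) * xx ω (i₀ + 1 + k) ≤ xx ω' (i₀ + 1 + k) := by
  induction k with
  | zero =>
    have h1 : xx ω' i₀ = xx ω i₀ :=
      Finset.prod_congr rfl fun l hl => rh_same (h0 l (Finset.mem_range.1 hl))
    rw [add_zero, xx_succ, xx_succ, h1, rh_diff h h']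
    refine le_of_eq ?_
    ring
  | succ k ih =>
    set θ : ℝ := (1 / 4 : ℝ) ^ (i₀ + 1) with hθ
    have hθ0 : 0 < θ := by positivity
    have hθ1 : θ ≤ 1 := pow_le_one₀ (by norm_num) (by norm_num)
    have e1 : i₀ + 1 + (k + 1) = (i₀ + 1 + k) + 1 := by ring
    set j := i₀ + 1 + k with hj
    rw [e1, xx_succ, xx_succ]
    have hy0 : (0 : ℝ) < (1 / 4 : ℝ) ^ j := by positivity
    have hyθ : (1 / 4 : ℝ) ^ j ≤ θ := by
      rw [hθ]
      exact pow_le_pow_of_le_one (by norm_num) (by norm_num) (by omega)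
    have e2 : (1 / 4 : ℝ) ^ (j + 1) = (1 / 4 : ℝ) ^ j / 4 := by rw [pow_succ]; ring
    have hc := rh_cmp ω ω' j
    rw [e2] at hc ⊢
    set y : ℝ := (1 / 4 : ℝ) ^ j with hy
    have hx := xx_pos ω j
    have hx' := xx_pos ω' j
    have hr := rh_pos ω j
    have hr' := rh_pos ω' j
    -- K (1 - y/4) ≥ K - y/4
    have hK0 : 0 ≤ 1 - θ / 3 + y / 3 := by linarith
    have hK1 : 1 - θ / 3 + y / 3 ≤ 1 := by linarith
    have h2 : (1 - θ / 3 + y / 4 / 3) ≤ (1 - θ / 3 + y / 3) * (1 - y / 4) := by nlinarith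
    calc (1 + θ) * (1 - θ / 3 + y / 4 / 3) * (xx ω j * rh ω j)
        ≤ (1 + θ) * ((1 - θ / 3 + y / 3) * (1 - y / 4)) * (xx ω j * rh ω j) := by
          refine mul_le_mul_of_nonneg_right (mul_le_mul_of_nonneg_left h2 (by linarith)) (by positivity)
      _ = ((1 + θ) * (1 - θ / 3 + y / 3) * xx ω j) * ((1 - y / 4) * rh ω j) := by ring
      _ ≤ xx ω' j * ((1 - y / 4) * rh ω j) := by
          refine mul_le_mul_of_nonneg_right ih (mul_nonneg (by linarith) hr.le)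
      _ ≤ xx ω' j * rh ω' j := mul_le_mul_of_nonneg_left hc hx'.le

theorem sep {ω ω' : ℕ → Bool} {i₀ : ℕ} (h0 : ∀ l < i₀, ω l = ω' l) (h : ω i₀ = true)
    (h' : ω' i₀ = false) : ∃ s' s s'' : ℝ, 0 ≤ s ∧ s' < s ∧ s < s'' ∧
      (∀ᶠ i in atTop, (dm mm ee i false : ℝ) ≤ 2 * s' * sz (SS ω) i) ∧
      (∀ᶠ i in atTop, 2 * s'' * sz (SS ω') i ≤ (dm mm ee i false : ℝ)) := by
  obtain ⟨L, hL, hLt, -⟩ := xx_lim ω
  obtain ⟨L', hL', hLt', hLe'⟩ := xx_lim ω'
  set θ : ℝ := (1 / 4 : ℝ) ^ (i₀ + 1) with hθ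
  have hθ0 : 0 < θ := by positivity
  have hθ1 : θ ≤ 1 := pow_le_one₀ (by norm_num) (by norm_num)
  have h1 : (1 + θ) * (1 - θ / 3) * L ≤ L' := by
    refine le_of_tendsto_of_tendsto (hLt.const_mul ((1 + θ) * (1 - θ / 3))) hLt' ?_
    filter_upwards [eventually_ge_atTop (i₀ + 1)] with j hj
    obtain ⟨k, rfl⟩ := Nat.exists_eq_add_of_le hj
    have h2 := xx_cmp h0 h h' k
    rw [← hθ] at h2
    refine le_trans ?_ h2
    refine mul_le_mul_of_nonneg_right (mul_le_mul_of_nonneg_left ?_ (by linarith)) (xx_pos _ _).le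
    have : (0 : ℝ) ≤ (1 / 4 : ℝ) ^ (i₀ + 1 + k) / 3 := by positivity
    linarith
  have h3 : L < L' := by
    refine lt_of_lt_of_le ?_ h1
    have h4 : 1 < (1 + θ) * (1 - θ / 3) := by nlinarith
    nlinarith
  refine ⟨(L + (L' - L) / 4) / 2, (L + (L' - L) / 2) / 2, (L + 3 * (L' - L) / 4) / 2, by linarith,
    by linarith, by linarith, ?_, ?_⟩
  · filter_upwards [hLt.eventually (gt_mem_nhds (show L < L + (L' - L) / 4 by linarith))] with i hi
    rw [dm_eq ω i]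
    have h5 : (0 : ℝ) ≤ sz (SS ω) i := Nat.cast_nonneg _
    have h6 : 2 * ((L + (L' - L) / 4) / 2) = L + (L' - L) / 4 := by ring
    rw [h6]
    exact mul_le_mul_of_nonneg_right hi.le h5
  · filter_upwards with i
    rw [dm_eq ω' i]
    have h5 : (0 : ℝ) ≤ sz (SS ω') i := Nat.cast_nonneg _
    have h6 := hLe' i
    exact mul_le_mul_of_nonneg_right (by linarith) h5

theorem s_NUM : S_NUM := by
  intro q
  refine ⟨fun ω => ?_, fun ω i => ⟨dm_le i, dm_le_sz ω i, dm_pos i false⟩, fun ω R => ?_,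
    fun ω => summable_rh ω, fun ω δ hδ => ?_, fun ω ω' hne => ?_⟩
  · exact { m_pos := mm_pos, c_pos := cc_pos ω, lt := mm_lt ω, S_eq := fun i => rfl,
            dvd := fun i => Dvd.intro_left _ rfl }
  · filter_upwards [eventually_ge_atTop (R + 1)] with i hi
    obtain ⟨j, rfl⟩ : ∃ j, i = j + 1 := ⟨i - 1, by omega⟩
    exact dm_true ω R j (by omega)
  · filter_upwards [tail_prod ω δ hδ] with i hi r
    have h1 := hi r
    have h2 : ∏ l ∈ Finset.range r, (mm (i + l) : ℝ) =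
        (∏ l ∈ Finset.range r, rh ω (i + l)) * ∏ l ∈ Finset.range r, (SS ω (i + l) : ℝ) := by
      rw [← Finset.prod_mul_distrib]
      refine Finset.prod_congr rfl fun l _ => ?_
      unfold rh
      have : (0 : ℝ) < SS ω (i + l) := by exact_mod_cast SS_pos ω (i + l)
      rw [div_mul_cancel₀ _ this.ne']
    show (1 - δ) * ∏ l ∈ Finset.range r, (SS ω (i + l) : ℝ) ≤
      ∏ l ∈ Finset.range r, (mm (i + l) : ℝ)
    rw [h2]
    exact mul_le_mul_of_nonneg_right h1 (Finset.prod_nonneg fun l _ => Nat.cast_nonneg _)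
  · have hex : ∃ i, ω i ≠ ω' i := by
      by_contra hcon
      push Not at hcon
      exact hne (funext hcon)
    classical
    have hmin : ∀ l < Nat.find hex, ω l = ω' l := fun l hl => by
      by_contra hcon
      exact Nat.find_min hex hl hcon
    have hfind := Nat.find_spec hex
    cases hω : ω (Nat.find hex) with
    | true =>
      have hω' : ω' (Nat.find hex) = false := by
        rw [hω] at hfind
        cases hω'' : ω' (Nat.find hex) with
        | true => exact absurd hω''.symm hfind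
        | false => rfl
      obtain ⟨s', s, s'', h1, h2, h3, h4, h5⟩ := sep hmin hω hω'
      exact ⟨s', s, s'', h1, h2, h3, Or.inl ⟨h4, h5⟩⟩
    | false =>
      have hω' : ω' (Nat.find hex) = true := by
        rw [hω] at hfind
        cases hω'' : ω' (Nat.find hex) with
        | true => rfl
        | false => exact absurd hω''.symm hfind
      obtain ⟨s', s, s'', h1, h2, h3, h4, h5⟩ := sep (fun l hl => (hmin l hl).symm) hω' hω
      exact ⟨s', s, s'', h1, h2, h3, Or.inr ⟨h4, h5⟩⟩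

end Pool.Agent.H407.ELNUM
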