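import Pool.Agent.H252.EL.Iface

/-!
# A uniform lower bound for the traces at the points of late stages
-/

set_option autoImplicit false

noncomputable section

namespace Pool.Agent.H407.ELUPT

open Filter Topology
open Pool.Agent.H252.EL
open Pool.Agent.H188R3 (IsLim)

theorem s_UPT : S_UPT := by
  intro hEXT D hF L _ j hL b y s hy
  by_contra hcon
  push Not at hcon
  have h1 : ∀ (k N : ℕ), ∃ (i : ℕ) (a : D.A i) (z : D.Z i), N ≤ i ∧
      ‖j i a - y‖ ≤ 1 / ((k : ℝ) + 1) ∧ z.1 = b ∧ (ntr (a z)).re < s + 1 / ((k : ℝ) + 1) := by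
    intro k N
    obtain ⟨i, hi, a, ha, z, hz, hlt⟩ := hcon (1 / ((k : ℝ) + 1)) N (by positivity)
    exact ⟨i, a, z, hi, ha, hz, hlt⟩
  choose f A Z hN ha hz hlt using h1
  let g : ℕ → ℕ := fun k => Nat.rec 0 (fun k gk => f k gk + 1) k
  have hg : ∀ k, g (k + 1) = f k (g k) + 1 := fun k => rfl
  have hmono : StrictMono fun k => f k (g k) := by
    refine strictMono_nat_of_lt_succ fun k => ?_
    have h2 := hN (k + 1) (g (k + 1))
    have h3 := hg k
    have h4 : f k (g k) < f (k + 1) (g (k + 1)) := by omega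
    exact h4
  obtain ⟨τ, hτ, hτ1, hτ2⟩ := hEXT D hF L j hL (fun k => f k (g k)) (fun k => Z k (g k)) hmono
  have h34 := hτ2 b fun k => hz k (g k)
  have hlow := hy τ hτ h34
  have h0 : Tendsto (fun k : ℕ => 1 / ((k : ℝ) + 1)) atTop (𝓝 0) :=
    tendsto_one_div_add_atTop_nhds_zero_nat
  have hlim : Tendsto (fun k => ‖y - j (f k (g k)) (A k (g k))‖) atTop (𝓝 0) := by
    refine squeeze_zero (fun k => norm_nonneg _) (fun k => ?_) h0
    rw [norm_sub_rev]
    exact ha k (g k)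
  have h5 := hτ1 y (fun k => A k (g k)) hlim
  have h6 : Tendsto (fun k => (ntr (A k (g k) (Z k (g k)))).re) (hyperfilter ℕ : Filter ℕ)
      (𝓝 (τ y).re) := (Complex.continuous_re.tendsto _).comp h5
  have h7 : Tendsto (fun k : ℕ => s + 1 / ((k : ℝ) + 1)) (hyperfilter ℕ : Filter ℕ) (𝓝 (s + 0)) :=
    (tendsto_const_nhds.add h0).mono_left Nat.hyperfilter_le_atTop
  have h8 : (τ y).re ≤ s + 0 := le_of_tendsto_of_tendsto' h6 h7 fun k => (hlt k (g k)).le
  linarith

end Pool.Agent.H407.ELUPT
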