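import Pool.Agent.H283.HT.Stm

/-!
# Project HT: CERT, the certificate by separation
-/

set_option autoImplicit false

namespace Pool.Agent.H407.HTX

open Pool.Agent.H283.HT

/-- The convex hull of a compact set of space is compact. -/
theorem cert_hull (S : Set P3) (hS : IsCompact S) : IsCompact (convexHull ℝ S) := by
  have hC : ∀ k : ℕ, IsCompact ((fun p : (Fin k → ℝ) × (Fin k → P3) => ∑ i, p.1 i • p.2 i) ''
      ((stdSimplex ℝ (Fin k)) ×ˢ (Set.univ.pi fun _ : Fin k => S))) := by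
    intro k
    refine ((isCompact_stdSimplex ℝ (Fin k)).prod (isCompact_univ_pi fun _ => hS)).image ?_
    fun_prop
  have e : convexHull ℝ S = ⋃ k ∈ Set.Iic 4,
      ((fun p : (Fin k → ℝ) × (Fin k → P3) => ∑ i, p.1 i • p.2 i) ''
      ((stdSimplex ℝ (Fin k)) ×ˢ (Set.univ.pi fun _ : Fin k => S))) := by
    apply Set.Subset.antisymm
    · intro x hx
      obtain ⟨ι, hι, z, w, hz, haff, hw, hw1, hx⟩ := eq_pos_convex_span_of_mem_convexHull hx
      have hcard : Fintype.card ι ≤ 4 := by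
        have h3 : Module.finrank ℝ P3 = 3 := by
          simp [P3, Module.finrank_prod]
        refine haff.card_le_finrank_succ.trans (Nat.succ_le_succ ?_)
        refine le_trans (Submodule.finrank_le _) ?_
        exact h3.le
      let eq := Fintype.equivFin ι
      rw [Set.mem_iUnion₂]
      refine ⟨Fintype.card ι, hcard, (fun i => w (eq.symm i), fun i => z (eq.symm i)), ⟨⟨?_, ?_⟩, ?_⟩,
        ?_⟩
      · intro i
        exact (hw _).le
      · rw [← hw1]
        exact Equiv.sum_comp eq.symm w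
      · intro i _
        exact hz ⟨_, rfl⟩
      · rw [← hx]
        exact Equiv.sum_comp eq.symm fun i => w i • z i
    · intro x hx
      rw [Set.mem_iUnion₂] at hx
      obtain ⟨k, -, ⟨w, z⟩, ⟨⟨hw0, hw1⟩, hz⟩, rfl⟩ := hx
      exact (convex_convexHull ℝ S).sum_mem (fun i _ => hw0 i) hw1
        (fun i _ => subset_convexHull ℝ S (hz i (Set.mem_univ i)))
  rw [e]
  exact (Set.finite_Iic 4).isCompact_biUnion fun k _ => hC k

theorem ip_smul_left (c : ℝ) (n x : P3) : ip (c • n) x = c * ip n x := by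
  unfold ip dt
  simp only [Prod.smul_fst, Prod.smul_snd, smul_eq_mul]
  ring

/-- Linear functionals are products with a vector. -/
theorem cert_dual (f : P3 →L[ℝ] ℝ) : ∃ d : P3, ∀ n, ip n d = -f n := by
  refine ⟨((-f ((1, 0), 0), -f ((0, 1), 0)), -f ((0, 0), 1)), fun n => ?_⟩
  obtain ⟨⟨x, y⟩, z⟩ := n
  have e : (((x, y), z) : P3) = x • (((1, 0), 0) : P3) + y • (((0, 1), 0) : P3) +
      z • (((0, 0), 1) : P3) := by
    simp
  have h : f ((x, y), z) = x * f ((1, 0), 0) + y * f ((0, 1), 0) + z * f ((0, 0), 1) := by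
    rw [e, map_add, map_add, map_smul, map_smul, map_smul]
    simp only [smul_eq_mul]
  rw [h]
  unfold ip dt
  simp only
  ring

theorem CERT_done (hHN : S_HN) : S_CERT := by
  intro K q hK hq a b hab hgood
  -- the set of unit normals over the arc
  set S : Set P3 := {n | ‖n‖ = 1 ∧ ∃ θ : ℝ, (a ≤ θ ∧ θ ≤ b) ∧ ∃ x ∈ K, x.1 = q θ ∧ n ∈ NK K x}
    with hSdef
  have hcont : Continuous fun p : P3 × P3 => ip p.1 p.2 := by
    unfold ip dt
    fun_prop
  have hScomp : IsCompact S := by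
    have hT : IsCompact ((Set.Icc a b ×ˢ (K ×ˢ Metric.sphere (0 : P3) 1)) ∩
        {p : ℝ × (P3 × P3) | p.2.1.1 = q p.1 ∧ ∀ y ∈ K, ip p.2.2 y ≤ ip p.2.2 p.2.1}) := by
      refine (isCompact_Icc.prod (hK.comp.prod (isCompact_sphere 0 1))).inter_right ?_
      refine IsClosed.inter (isClosed_eq (by fun_prop) (hq.cont.comp continuous_fst)) ?_
      have e : {p : ℝ × (P3 × P3) | ∀ y ∈ K, ip p.2.2 y ≤ ip p.2.2 p.2.1} =
          ⋂ y ∈ K, {p : ℝ × (P3 × P3) | ip p.2.2 y ≤ ip p.2.2 p.2.1} := by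
        ext p
        simp
      change IsClosed {p : ℝ × (P3 × P3) | ∀ y ∈ K, ip p.2.2 y ≤ ip p.2.2 p.2.1}
      rw [e]
      refine isClosed_biInter fun y _ => ?_
      refine isClosed_le ?_ ?_
      · exact hcont.comp (f := fun p : ℝ × (P3 × P3) => (p.2.2, y)) (by fun_prop)
      · exact hcont.comp (f := fun p : ℝ × (P3 × P3) => (p.2.2, p.2.1)) (by fun_prop)
    have e : S = (fun p : ℝ × (P3 × P3) => p.2.2) '' ((Set.Icc a b ×ˢ
        (K ×ˢ Metric.sphere (0 : P3) 1)) ∩
        {p : ℝ × (P3 × P3) | p.2.1.1 = q p.1 ∧ ∀ y ∈ K, ip p.2.2 y ≤ ip p.2.2 p.2.1}) := by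
      apply Set.Subset.antisymm
      · rintro n ⟨hn1, θ, hθ, x, hx, hxq, hn⟩
        exact ⟨(θ, (x, n)), ⟨⟨hθ, hx, by simpa using hn1⟩, hxq, hn⟩, rfl⟩
      · rintro _ ⟨⟨θ, x, n⟩, ⟨⟨hθ, hx, hn1⟩, hxq, hn⟩, rfl⟩
        exact ⟨by simpa using hn1, θ, hθ, x, hx, hxq, hn⟩
    rw [e]
    exact hT.image (by fun_prop)
  by_cases h0 : (0 : P3) ∈ convexHull ℝ S
  · -- the certificate
    obtain ⟨ι, hι, z, w, hz, -, hw, hw1, hsum⟩ := eq_pos_convex_span_of_mem_convexHull h0
    have hz' : ∀ i, z i ∈ S := fun i => hz ⟨i, rfl⟩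
    choose hn1 θ hθ x hx hxq hn using hz'
    let eq := Fintype.equivFin ι
    refine ⟨Fintype.card ι, fun i => θ (eq.symm i), fun i => x (eq.symm i),
      fun i => w (eq.symm i) • z (eq.symm i), ?_, fun i => (hθ _).1, fun i => (hθ _).2,
      fun i => hx _, fun i => hxq _, ?_, ?_, ?_⟩
    · rw [Fintype.card_pos_iff]
      by_contra hemp
      rw [not_nonempty_iff] at hemp
      rw [Finset.univ_eq_empty, Finset.sum_empty] at hw1
      exact zero_ne_one hw1
    · intro i y hy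
      rw [ip_smul_left, ip_smul_left]
      exact mul_le_mul_of_nonneg_left (hn _ y hy) (hw _).le
    · intro i hi
      rcases smul_eq_zero.mp hi with h | h
      · exact (hw _).ne' h
      · have := hn1 (eq.symm i)
        rw [h, norm_zero] at this
        exact zero_ne_one this
    · rw [← hsum]
      exact Equiv.sum_comp eq.symm fun i => w i • z i
  · -- separation: the arc is good
    exfalso
    obtain ⟨f, u, hu0, hu⟩ := geometric_hahn_banach_point_closed (convex_convexHull ℝ S)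
      (cert_hull S hScomp).isClosed h0
    rw [map_zero] at hu0
    obtain ⟨d, hd⟩ := cert_dual f
    apply hgood
    refine ⟨d, fun θ h1 h2 x hx hxq => ?_⟩
    by_contra hdC
    obtain ⟨n, hn0, hn, hnd⟩ := hHN K hK x hx d hdC
    have hpos : 0 < ‖n‖ := norm_pos_iff.mpr hn0
    have hmem : ‖n‖⁻¹ • n ∈ S := by
      refine ⟨?_, θ, ⟨h1, h2⟩, x, hx, hxq, ?_⟩
      · rw [norm_smul, norm_inv, norm_norm, inv_mul_cancel₀ hpos.ne']
      · intro y hy
        rw [ip_smul_left, ip_smul_left]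
        exact mul_le_mul_of_nonneg_left (hn y hy) (inv_pos.mpr hpos).le
    have h3 := hu _ (subset_convexHull ℝ S hmem)
    have h4 := hd (‖n‖⁻¹ • n)
    rw [ip_smul_left] at h4
    have h5 : 0 ≤ ‖n‖⁻¹ * ip n d := mul_nonneg (inv_pos.mpr hpos).le hnd
    linarith

end Pool.Agent.H407.HTX
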