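import Pool.Agent.H979.FC.Stm

/-!
# FC RUNP: the probability that a particle follows a given path
-/

set_option autoImplicit false

open MeasureTheory ProbabilityTheory Finset
open scoped ENNReal NNReal

namespace Pool.Agent.H407.FCR

open Pool.Agent.H979.FR Pool.Agent.H979.FC

variable {V : Type}

/-- the vertices of the path -/
def wv (x : V) (l : List V) (n : ℕ) : V := (x :: l).getD n x

theorem wv_zero (x : V) (l : List V) : wv x l 0 = x := rfl

theorem wv_get (x : V) (l : List V) {n : ℕ} (hn : n < (x :: l).length) :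
    wv x l n = (x :: l)[n] := List.getD_eq_getElem _ _ hn

theorem wv_succ (x : V) (l : List V) {n : ℕ} (hn : n < l.length) : wv x l (n + 1) = l[n] := by
  rw [wv_get x l (by rw [List.length_cons]; omega), List.getElem_cons_succ]

theorem set_eq (x : V) (l : List V) :
    {c : ℕ × V → V | ∀ (n : ℕ) (hn : n < l.length), path x c (n + 1) = l[n]} =
      {c | ∀ n < l.length, c (n, wv x l n) = wv x l (n + 1)} := by
  ext c
  constructor
  · intro h n hn
    have h1 : ∀ m ≤ l.length, path x c m = wv x l m := by
      intro m hm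
      cases m with
      | zero => rfl
      | succ m => rw [wv_succ x l hm]; exact h m hm
    have h2 := h1 (n + 1) hn
    change c (n, path x c n) = _ at h2
    rw [h1 n hn.le] at h2
    exact h2
  · intro h
    have h1 : ∀ m ≤ l.length, path x c m = wv x l m := by
      intro m
      induction m with
      | zero => intro _; rfl
      | succ m ih =>
        intro hm
        change c (m, path x c m) = _
        rw [ih (by omega)]
        exact h m hm
    intro n hn
    rw [h1 (n + 1) hn, wv_succ x l hn]

open Classical in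
/-- the coordinates used by the path -/
noncomputable def co (x : V) (l : List V) : Finset (ℕ × V) :=
  (range l.length).image fun n => (n, wv x l n)

open Classical in
theorem set_pi (x : V) (l : List V) :
    {c : ℕ × V → V | ∀ n < l.length, c (n, wv x l n) = wv x l (n + 1)} =
      (co x l : Set (ℕ × V)).pi fun p => {wv x l (p.1 + 1)} := by
  ext c
  rw [Set.mem_pi]
  constructor
  · intro h p hp
    unfold co at hp
    rw [Finset.mem_coe, Finset.mem_image] at hp
    obtain ⟨n, hn, rfl⟩ := hp
    exact h n (Finset.mem_range.1 hn)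
  · intro h n hn
    have h1 := h (n, wv x l n) (by
      unfold co
      rw [Finset.mem_coe, Finset.mem_image]
      exact ⟨n, Finset.mem_range.2 hn, rfl⟩)
    exact h1

section law

variable [MeasurableSpace V] [DiscreteMeasurableSpace V]

open Classical in
theorem step_single (G : SimpleGraph V) [G.LocallyFinite] {d : ℕ} (hd : 0 < d) {v : V}
    (hv : G.degree v = d) (y : V) :
    stepLaw G v {y} = if G.Adj v y then (d : ℝ≥0∞)⁻¹ else 0 := by
  have hne : (G.neighborSet v).Nonempty := by
    have h1 : 0 < (G.neighborFinset v).card := by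
      rw [G.card_neighborFinset_eq_degree, hv]
      exact hd
    obtain ⟨z, hz⟩ := Finset.card_pos.1 h1
    exact ⟨z, (G.mem_neighborFinset v z).1 hz⟩
  have hco : G.neighborSet v = (G.neighborFinset v : Set V) := (G.coe_neighborFinset v).symm
  unfold stepLaw
  rw [if_pos hne, uniformOn, cond_apply MeasurableSet.of_discrete, hco, Measure.count_apply_finset,
    G.card_neighborFinset_eq_degree, hv]
  by_cases h : G.Adj v y
  · have h1 : (G.neighborFinset v : Set V) ∩ {y} = {y} := by
      rw [Set.inter_eq_right, Set.singleton_subset_iff, Finset.mem_coe]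
      exact (G.mem_neighborFinset v y).2 h
    rw [if_pos h, h1, Measure.count_singleton, mul_one]
  · have h1 : (G.neighborFinset v : Set V) ∩ {y} = ∅ := by
      rw [Set.inter_singleton_eq_empty, Finset.mem_coe]
      exact fun hc => h ((G.mem_neighborFinset v y).1 hc)
    rw [if_neg h, h1, measure_empty, mul_zero]

open Classical in
theorem choice_prob (G : SimpleGraph V) [G.LocallyFinite] {d : ℕ} (hd : 0 < d)
    (hdeg : ∀ v, G.degree v = d) (x : V) (l : List V) :
    choiceLaw G {c : ℕ × V → V | ∀ (n : ℕ) (hn : n < l.length), path x c (n + 1) = l[n]} =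
      if List.IsChain G.Adj (x :: l) then ((d : ℝ≥0∞)⁻¹) ^ l.length else 0 := by
  rw [set_eq, set_pi]
  unfold choiceLaw
  rw [Measure.infinitePi_pi (fun p : ℕ × V => stepLaw G p.2)
    (fun i _ => MeasurableSet.of_discrete)]
  have h1 : ∏ p ∈ co x l, stepLaw G p.2 {wv x l (p.1 + 1)} =
      ∏ n ∈ range l.length, stepLaw G (wv x l n) {wv x l (n + 1)} := by
    unfold co
    rw [Finset.prod_image]
    intro a _ b _ hab
    exact (Prod.mk.inj hab).1
  rw [h1]
  have h2 : List.IsChain G.Adj (x :: l) ↔ ∀ n < l.length, G.Adj (wv x l n) (wv x l (n + 1)) := by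
    rw [List.isChain_iff_getElem]
    constructor
    · intro h n hn
      have hn1 : n + 1 < (x :: l).length := by rw [List.length_cons]; omega
      rw [wv_get x l hn1, wv_get x l (by omega)]
      exact h n hn1
    · intro h n hn1
      have hn : n < l.length := by rw [List.length_cons] at hn1; omega
      have h3 := h n hn
      rw [wv_get x l hn1, wv_get x l (by omega)] at h3
      exact h3
  by_cases hc : List.IsChain G.Adj (x :: l)
  · rw [if_pos hc]
    have h3 := h2.1 hc
    rw [Finset.prod_congr rfl (fun n hn => (step_single G hd (hdeg _) _).trans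
      (if_pos (h3 n (Finset.mem_range.1 hn)))), Finset.prod_const, Finset.card_range]
  · rw [if_neg hc]
    have h3 : ∃ n < l.length, ¬ G.Adj (wv x l n) (wv x l (n + 1)) := by
      by_contra hcon
      push Not at hcon
      exact hc (h2.2 hcon)
    obtain ⟨n, hn, h4⟩ := h3
    exact Finset.prod_eq_zero (Finset.mem_range.2 hn)
      ((step_single G hd (hdeg _) _).trans (if_neg h4))

end law

theorem clock_meas (t : ℝ) (k : ℕ) :
    MeasurableSet {E : ℕ → ℝ | ∀ n : ℕ, ∑ j ∈ range n, E j ≤ t ↔ n ≤ k} := by
  rw [Set.ofPred_forall]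
  refine MeasurableSet.iInter fun n => ?_
  have h1 : MeasurableSet {E : ℕ → ℝ | ∑ j ∈ range n, E j ≤ t} :=
    measurableSet_le (Finset.measurable_sum _ fun j _ => measurable_pi_apply j) measurable_const
  by_cases hn : n ≤ k
  · have h2 : {E : ℕ → ℝ | ∑ j ∈ range n, E j ≤ t ↔ n ≤ k} = {E | ∑ j ∈ range n, E j ≤ t} := by
      ext E
      exact ⟨fun h => h.2 hn, fun h => ⟨fun _ => hn, fun _ => h⟩⟩
    rw [h2]
    exact h1
  · have h2 : {E : ℕ → ℝ | ∑ j ∈ range n, E j ≤ t ↔ n ≤ k} = {E | ∑ j ∈ range n, E j ≤ t}ᶜ := by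
      ext E
      exact ⟨fun h h3 => hn (h.1 h3), fun h => ⟨fun h3 => absurd h3 h, fun h3 => absurd h3 hn⟩⟩
    rw [h2]
    exact h1.compl

/-- **RUNP** -/
theorem fc_runp (hK : S_KLAW) : S_RUNP := by
  intro V _ _ _ G _ d hd hdeg t ht x l
  have hset : {ξ : Pool.Agent.H979.FR.Part V | run t x ξ l} =
      {E : ℕ → ℝ | ∀ n : ℕ, ∑ j ∈ range n, E j ≤ t ↔ n ≤ l.length} ×ˢ
        {c : ℕ × V → V | ∀ (n : ℕ) (hn : n < l.length), path x c (n + 1) = l[n]} := by
    ext ξ
    exact Iff.rfl
  constructor
  · rw [hset]
    refine (clock_meas t l.length).prod ?_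
    rw [set_eq, set_pi]
    exact MeasurableSet.pi (Finset.countable_toSet _) fun i _ => MeasurableSet.of_discrete
  · rw [hset]
    unfold partLaw
    rw [Measure.prod_prod, hK t ht, choice_prob G hd hdeg x l]
    split_ifs with h
    · have hd' : (0 : ℝ) < (d : ℝ) := by exact_mod_cast hd
      rw [div_eq_mul_inv, ENNReal.ofReal_mul, ← inv_pow, ENNReal.ofReal_pow (by positivity),
        ENNReal.ofReal_inv_of_pos hd', ENNReal.ofReal_natCast]
      unfold q
      positivity
    · rw [mul_zero]

end Pool.Agent.H407.FCR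

/-- **RUNP** -/
theorem Pool.Agent.H407.fc_runp (hK : Pool.Agent.H979.FC.S_KLAW) : Pool.Agent.H979.FC.S_RUNP :=
  Pool.Agent.H407.FCR.fc_runp hK
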