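import Pool.Agent.H867.FT.Gen9

/-!
# The completion is flat
-/

set_option autoImplicit false

namespace Pool.Agent.H407.FT867FLT

open Pool.Agent.H867.FT

section

variable {R S : Type} [CommRing R] [CommRing S] [Algebra R S] {I : Ideal R} {J : Ideal S}

theorem smul_top_iff {A : Type} [CommRing A] (I : Ideal A) (n : ℕ) (r : A) :
    r ∈ (I ^ n • ⊤ : Submodule A A) ↔ r ∈ I ^ n := by
  rw [smul_eq_mul, Ideal.mul_top]

/-- approximation -/
noncomputable def ap (h1 : ∀ (n : ℕ) (s : S), ∃ r : R, s - algebraMap R S r ∈ J ^ n) (n : ℕ)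
    (s : S) : R := (h1 n s).choose

theorem ap_spec (h1 : ∀ (n : ℕ) (s : S), ∃ r : R, s - algebraMap R S r ∈ J ^ n) (n : ℕ)
    (s : S) : s - algebraMap R S (ap h1 n s) ∈ J ^ n := (h1 n s).choose_spec

theorem eq_of (h2 : ∀ (n : ℕ) (r : R), r ∈ I ^ n ↔ algebraMap R S r ∈ J ^ n) (n : ℕ) (s : S)
    (r r' : R) (h : s - algebraMap R S r ∈ J ^ n) (h' : s - algebraMap R S r' ∈ J ^ n) :
    (Submodule.Quotient.mk r : R ⧸ (I ^ n • ⊤ : Submodule R R)) = Submodule.Quotient.mk r' := by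
  rw [Submodule.Quotient.eq, smul_top_iff, h2, map_sub]
  have e : algebraMap R S r - algebraMap R S r' =
      (s - algebraMap R S r') - (s - algebraMap R S r) := by ring
  rw [e]
  exact (J ^ n).sub_mem h' h

/-- the map to the completion -/
noncomputable def phi (h1 : ∀ (n : ℕ) (s : S), ∃ r : R, s - algebraMap R S r ∈ J ^ n)
    (h2 : ∀ (n : ℕ) (r : R), r ∈ I ^ n ↔ algebraMap R S r ∈ J ^ n) :
    S →ₗ[R] AdicCompletion I R where
  toFun s := ⟨fun n => Submodule.Quotient.mk (ap h1 n s), by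
    intro m n hmn
    refine eq_of h2 m s _ _ ?_ (ap_spec h1 m s)
    exact Ideal.pow_le_pow_right hmn (ap_spec h1 n s)⟩
  map_add' s t := by
    apply AdicCompletion.ext
    intro n
    change (Submodule.Quotient.mk (ap h1 n (s + t)) : R ⧸ (I ^ n • ⊤ : Submodule R R)) =
      Submodule.Quotient.mk (ap h1 n s + ap h1 n t)
    refine eq_of h2 n (s + t) _ _ (ap_spec h1 n (s + t)) ?_
    rw [map_add, add_sub_add_comm]
    exact (J ^ n).add_mem (ap_spec h1 n s) (ap_spec h1 n t)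
  map_smul' r s := by
    apply AdicCompletion.ext
    intro n
    change (Submodule.Quotient.mk (ap h1 n (r • s)) : R ⧸ (I ^ n • ⊤ : Submodule R R)) =
      Submodule.Quotient.mk (r • ap h1 n s)
    refine eq_of h2 n (r • s) _ _ (ap_spec h1 n (r • s)) ?_
    rw [smul_eq_mul, map_mul, Algebra.smul_def, ← mul_sub]
    exact (J ^ n).mul_mem_left _ (ap_spec h1 n s)

theorem phi_val (h1 : ∀ (n : ℕ) (s : S), ∃ r : R, s - algebraMap R S r ∈ J ^ n)
    (h2 : ∀ (n : ℕ) (r : R), r ∈ I ^ n ↔ algebraMap R S r ∈ J ^ n) (s : S) (n : ℕ) :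
    (phi h1 h2 s).val n = Submodule.Quotient.mk (ap h1 n s) := rfl

theorem phi_inj [IsHausdorff J S] (h1 : ∀ (n : ℕ) (s : S), ∃ r : R, s - algebraMap R S r ∈ J ^ n)
    (h2 : ∀ (n : ℕ) (r : R), r ∈ I ^ n ↔ algebraMap R S r ∈ J ^ n) :
    Function.Injective (phi h1 h2) := by
  rw [injective_iff_map_eq_zero]
  intro s hs
  refine IsHausdorff.haus (inferInstance : IsHausdorff J S) s fun n => ?_
  rw [SModEq.zero, smul_top_iff]
  have h3 : (Submodule.Quotient.mk (ap h1 n s) : R ⧸ (I ^ n • ⊤ : Submodule R R)) = 0 := by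
    rw [← phi_val h1 h2 s n, hs]
    rfl
  rw [Submodule.Quotient.mk_eq_zero, smul_top_iff, h2] at h3
  have h4 := (J ^ n).add_mem (ap_spec h1 n s) h3
  rwa [sub_add_cancel] at h4

theorem phi_surj [IsPrecomplete J S]
    (h1 : ∀ (n : ℕ) (s : S), ∃ r : R, s - algebraMap R S r ∈ J ^ n)
    (h2 : ∀ (n : ℕ) (r : R), r ∈ I ^ n ↔ algebraMap R S r ∈ J ^ n) :
    Function.Surjective (phi h1 h2) := by
  intro x
  obtain ⟨f, rfl⟩ := AdicCompletion.mk_surjective I R x
  obtain ⟨L, hL⟩ := IsPrecomplete.prec (inferInstance : IsPrecomplete J S)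
    (f := fun n => algebraMap R S (f n)) (by
      intro m n hmn
      rw [SModEq.sub_mem, smul_top_iff, ← map_sub, ← h2, ← smul_top_iff, ← SModEq.sub_mem]
      exact f.property hmn)
  refine ⟨L, ?_⟩
  apply AdicCompletion.ext
  intro n
  rw [phi_val]
  change (Submodule.Quotient.mk (ap h1 n L) : R ⧸ (I ^ n • ⊤ : Submodule R R)) =
    Submodule.Quotient.mk (f n)
  refine eq_of h2 n L _ _ (ap_spec h1 n L) ?_
  have h3 := hL n
  rw [SModEq.sub_mem, smul_top_iff] at h3
  rw [← neg_sub]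
  exact (J ^ n).neg_mem h3

end

theorem flt : S_FLT := by
  intro R S _ _ _ _ _ _ hc _ h1 h2
  have hi := phi_inj h1 h2
  have hs := phi_surj h1 h2
  exact Module.Flat.of_linearEquiv (LinearEquiv.ofBijective (phi h1 h2) ⟨hi, hs⟩)

end Pool.Agent.H407.FT867FLT
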