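import Pool.Agent.H638.GM.Stm

/-!
# GM TUBE: moving one point along a segment, inside a neighbourhood of the segment
-/

set_option autoImplicit false

open MeasureTheory Set Filter Topology
open scoped ENNReal NNReal

namespace Pool.Agent.H407.GMTUBE

open Pool.Agent.H638.GM

variable {d : ℕ}

/-- the direction of the shear -/
noncomputable def wv (i : Fin d) (p q : V d) : V d := q - p - Pi.single i 1

/-- the linear map which takes the basis vector `e i` to `q - p` -/
noncomputable def Am (i : Fin d) (p q : V d) : V d →ₗ[ℝ] V d :=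
  LinearMap.id + (LinearMap.proj i : V d →ₗ[ℝ] ℝ).smulRight (wv i p q)

/-- its inverse -/
noncomputable def Bm (i : Fin d) (p q : V d) : V d →ₗ[ℝ] V d :=
  LinearMap.id - (q i - p i)⁻¹ • (LinearMap.proj i : V d →ₗ[ℝ] ℝ).smulRight (wv i p q)

theorem Am_apply (i : Fin d) (p q x : V d) : Am i p q x = x + x i • wv i p q := rfl

theorem Bm_apply (i : Fin d) (p q x : V d) :
    Bm i p q x = x - (q i - p i)⁻¹ • (x i • wv i p q) := rfl

theorem wv_i (i : Fin d) (p q : V d) : wv i p q i = q i - p i - 1 := by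
  unfold wv
  rw [Pi.sub_apply, Pi.sub_apply, Pi.single_eq_same]

theorem AB (i : Fin d) {p q : V d} (h : q i - p i ≠ 0) (x : V d) :
    Am i p q (Bm i p q x) = x := by
  funext j
  rw [Am_apply, Bm_apply]
  simp only [Pi.add_apply, Pi.sub_apply, Pi.smul_apply, smul_eq_mul]
  rw [wv_i]
  field_simp
  ring

theorem BA (i : Fin d) {p q : V d} (h : q i - p i ≠ 0) (x : V d) :
    Bm i p q (Am i p q x) = x := by
  funext j
  rw [Bm_apply, Am_apply]
  simp only [Pi.add_apply, Pi.sub_apply, Pi.smul_apply, smul_eq_mul]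
  rw [wv_i]
  field_simp
  ring

/-- the linear equivalence -/
noncomputable def Ae (i : Fin d) {p q : V d} (h : q i - p i ≠ 0) : V d ≃L[ℝ] V d :=
  (LinearEquiv.ofLinearMap (Am i p q) (Bm i p q) (LinearMap.ext fun x => AB i h x)
    (LinearMap.ext fun x => BA i h x)).toContinuousLinearEquiv

theorem Ae_apply (i : Fin d) {p q : V d} (h : q i - p i ≠ 0) (x : V d) :
    Ae i h x = x + x i • wv i p q := rfl

/-- the affine homeomorphism -/
noncomputable def T (i : Fin d) {p q : V d} (h : q i - p i ≠ 0) : V d ≃ₜ V d :=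
  (Ae i h).toHomeomorph.trans (Homeomorph.addLeft p)

theorem T_apply (i : Fin d) {p q : V d} (h : q i - p i ≠ 0) (x : V d) :
    T i h x = p + Ae i h x := rfl

theorem T_lip (i : Fin d) {p q : V d} (h : q i - p i ≠ 0) :
    ∃ K : ℝ≥0, LipschitzWith K (T i h) := by
  refine ⟨_, LipschitzWith.of_dist_le_mul (K := ‖(Ae i h : V d →L[ℝ] V d)‖₊) fun x y => ?_⟩
  rw [T_apply, T_apply, dist_add_left]
  exact (Ae i h).lipschitz.dist_le_mul x y

theorem T_symm_lip (i : Fin d) {p q : V d} (h : q i - p i ≠ 0) :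
    ∃ K : ℝ≥0, LipschitzWith K (T i h).symm := by
  refine ⟨_, LipschitzWith.of_dist_le_mul (K := ‖((Ae i h).symm : V d →L[ℝ] V d)‖₊) fun x y => ?_⟩
  have e : ∀ z, (T i h).symm z = (Ae i h).symm (-p + z) := fun z => rfl
  rw [e, e]
  refine ((Ae i h).symm.lipschitz.dist_le_mul _ _).trans ?_
  rw [dist_add_left]

theorem T_zero (i : Fin d) {p q : V d} (h : q i - p i ≠ 0) : T i h 0 = p := by
  rw [T_apply, map_zero, add_zero]

theorem T_add (i : Fin d) {p q : V d} (h : q i - p i ≠ 0) (x : V d) (t : ℝ) :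
    T i h (x + Pi.single i t) = T i h x + t • (q - p) := by
  rw [T_apply, T_apply, map_add]
  have e : Ae i h (Pi.single i t) = t • (q - p) := by
    rw [Ae_apply, Pi.single_eq_same]
    have e2 : (Pi.single i t : V d) = t • (Pi.single i 1 : V d) := by
      rw [← Pi.single_smul, smul_eq_mul, mul_one]
    rw [e2]
    unfold wv
    rw [← smul_add]
    congr 1
    abel
  rw [e, add_assoc]

theorem tube_sub (i : Fin d) {p q : V d} (h : q i - p i ≠ 0) {O : Set (V d)} (hO : IsOpen O)
    (hs : segment ℝ p q ⊆ O) : ∃ M0 : ℕ, ∀ M : ℕ, M0 ≤ M → 1 ≤ M → ∀ y : V d,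
      -(1 / (M : ℝ)) < y i → y i < 1 + 1 / (M : ℝ) → (∀ j, j ≠ i → |y j| < 1 / (M : ℝ)) →
      T i h y ∈ O := by
  have hcomp : IsCompact (segment ℝ p q) := by
    rw [segment_eq_image_lineMap]
    exact isCompact_Icc.image AffineMap.lineMap_continuous
  obtain ⟨δ, hδ, hth⟩ := hcomp.exists_thickening_subset_open hO hs
  obtain ⟨K, hK⟩ := T_lip i h
  obtain ⟨M0, hM0⟩ := exists_nat_gt ((K + 1) / δ)
  refine ⟨M0, fun M hM hM1 y h1 h2 h3 => hth ?_⟩
  have hMp : (0 : ℝ) < M := by exact_mod_cast hM1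
  have hMM : ((M0 : ℕ) : ℝ) ≤ M := by exact_mod_cast hM
  set c : ℝ := max 0 (min 1 (y i)) with hc
  have hc0 : 0 ≤ c := le_max_left _ _
  have hc1 : c ≤ 1 := max_le zero_le_one (min_le_left _ _)
  have hpos : 0 < 1 / (M : ℝ) := by positivity
  have hci : |y i - c| ≤ 1 / (M : ℝ) := by
    rw [abs_le]
    rcases le_total (y i) 0 with g | g
    · have e : c = 0 := by rw [hc, min_eq_right (by linarith), max_eq_left g]
      rw [e]
      exact ⟨by linarith, by linarith⟩
    · rcases le_total (y i) 1 with g' | g'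
      · have e : c = y i := by rw [hc, min_eq_right g', max_eq_right g]
        rw [e]
        exact ⟨by linarith, by linarith⟩
      · have e : c = 1 := by rw [hc, min_eq_left g', max_eq_right zero_le_one]
        rw [e]
        exact ⟨by linarith, by linarith⟩
  have hd : dist y (Pi.single i c) ≤ 1 / (M : ℝ) := by
    rw [dist_pi_le_iff hpos.le]
    intro j
    rw [Real.dist_eq]
    by_cases hj : j = i
    · subst hj
      rw [Pi.single_eq_same]
      exact hci
    · rw [Pi.single_eq_of_ne hj, sub_zero]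
      exact (h3 j hj).le
  rw [Metric.mem_thickening_iff]
  refine ⟨T i h (Pi.single i c), ?_, ?_⟩
  · have e : T i h (Pi.single i c) = p + c • (q - p) := by
      have := T_add i h 0 c
      rw [zero_add, T_zero] at this
      exact this
    rw [e, segment_eq_image']
    exact ⟨c, ⟨hc0, hc1⟩, rfl⟩
  · refine lt_of_le_of_lt (hK.dist_le_mul _ _) ?_
    have hK0 : (0 : ℝ) ≤ K := K.coe_nonneg
    calc (K : ℝ) * dist y (Pi.single i c) ≤ K * (1 / (M : ℝ)) :=
          mul_le_mul_of_nonneg_left hd hK0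
      _ = K / M := by ring
      _ < δ := by
          rw [div_lt_iff₀ hMp]
          rw [div_lt_iff₀ hδ] at hM0
          nlinarith

theorem mv_image (i : Fin d) {p q : V d} (h : q i - p i ≠ 0) (g : V d ≃ₜ V d) :
    mv ((T i h).symm.trans (g.trans (T i h))) ⊆ Prod.map (T i h) (T i h) '' mv g := by
  rintro ⟨x, y⟩ ⟨h1, h2⟩
  refine ⟨((T i h).symm x, (T i h).symm y), ⟨?_, ?_⟩, ?_⟩
  · change (T i h).symm y = g ((T i h).symm x)
    have h1' : y = T i h (g ((T i h).symm x)) := h1
    rw [h1', Homeomorph.symm_apply_apply]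
  · intro hc
    exact h2 ((T i h).symm.injective hc)
  · rw [Prod.map_apply, Homeomorph.apply_symm_apply, Homeomorph.apply_symm_apply]

theorem main (h : S_TUB0) : S_TUBE := by
  intro d hd p q O hO hs ε hε
  by_cases hpq : p = q
  · subst hpq
    refine ⟨Homeomorph.refl _, ⟨⟨1, LipschitzWith.id⟩, ⟨1, LipschitzWith.id⟩, fun x _ => rfl⟩,
      rfl, fun x => ?_, ?_⟩
    · change dist x x ≤ _
      rw [dist_self, dist_self]
    · have e : mv (Homeomorph.refl (V d)) = ∅ := by
        ext ⟨x, y⟩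
        constructor
        · rintro ⟨h1, h2⟩
          exact absurd h1 h2
        · intro h1
          exact absurd h1 (Set.notMem_empty _)
      rw [e, measure_empty]
      exact zero_le
  obtain ⟨i, hi⟩ : ∃ i, q i - p i ≠ 0 := by
    by_contra hcon
    push Not at hcon
    exact hpq (funext fun i => (sub_eq_zero.1 (hcon i)).symm)
  obtain ⟨M0, hM0⟩ := tube_sub i hi hO hs
  obtain ⟨K, hK⟩ := T_lip i hi
  obtain ⟨K', hK'⟩ := T_symm_lip i hi
  -- the choice of `M`
  have hlim : Tendsto (fun M : ℕ => (K : ℝ≥0∞) ^ (d : ℝ) * ENNReal.ofReal (9 * 2 ^ d / M)) atTop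
      (𝓝 0) := by
    have h1 : Tendsto (fun M : ℕ => ENNReal.ofReal (9 * 2 ^ d / (M : ℝ))) atTop (𝓝 0) := by
      have h2 := ENNReal.tendsto_ofReal (tendsto_const_div_atTop_nhds_zero_nat (9 * 2 ^ d : ℝ))
      rwa [ENNReal.ofReal_zero] at h2
    have h3 := ENNReal.Tendsto.const_mul (a := (K : ℝ≥0∞) ^ (d : ℝ)) h1
      (Or.inr (ENNReal.rpow_ne_top_of_nonneg (Nat.cast_nonneg d) ENNReal.coe_ne_top))
    rwa [mul_zero] at h3
  obtain ⟨M, hMlt, hMM0, hM1⟩ := ((hlim.eventually_lt_const hε).and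
    ((eventually_ge_atTop M0).and (eventually_ge_atTop 1))).exists
  obtain ⟨g, ⟨⟨Kg, hKg⟩, ⟨Kg', hKg'⟩, hoff⟩, hg0, hgt, hgm⟩ := h d hd i M hM1
  refine ⟨(T i hi).symm.trans (g.trans (T i hi)), ⟨⟨K * (Kg * K'), ?_⟩, ⟨K * (Kg' * K'), ?_⟩, ?_⟩,
    ?_, ?_, ?_⟩
  · exact hK.comp (hKg.comp hK')
  · exact hK.comp (hKg'.comp hK')
  · intro x hx
    change T i hi (g ((T i hi).symm x)) = x
    have h1 : (T i hi).symm x ∉ {x : V d | -(1 / (M : ℝ)) < x i ∧ x i < 1 + 1 / (M : ℝ) ∧
        ∀ j, j ≠ i → |x j| < 1 / (M : ℝ)} := by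
      rintro ⟨a1, a2, a3⟩
      have h2 := hM0 M hMM0 hM1 _ a1 a2 a3
      rw [Homeomorph.apply_symm_apply] at h2
      exact hx h2
    rw [hoff _ h1, Homeomorph.apply_symm_apply]
  · change T i hi (g ((T i hi).symm p)) = q
    have h1 : (T i hi).symm p = 0 := by
      rw [Homeomorph.symm_apply_eq, T_zero]
    rw [h1, hg0]
    have h2 := T_add i hi 0 1
    rw [zero_add, T_zero, one_smul] at h2
    rw [h2]
    abel
  · intro x
    change dist (T i hi (g ((T i hi).symm x))) x ≤ dist p q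
    obtain ⟨t, ht0, ht1, ht⟩ := hgt ((T i hi).symm x)
    rw [ht, T_add, Homeomorph.apply_symm_apply, dist_eq_norm, add_sub_cancel_left, norm_smul,
      Real.norm_of_nonneg ht0, dist_comm p q, dist_eq_norm]
    exact mul_le_of_le_one_left (norm_nonneg _) ht1
  · refine (measure_mono (mv_image i hi g)).trans ?_
    have hlip : LipschitzWith K (Prod.map (T i hi) (T i hi)) := by
      intro a b
      rw [Prod.edist_eq]
      refine max_le ?_ ?_
      · refine (hK a.1 b.1).trans ?_
        gcongr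
        rw [Prod.edist_eq]
        exact le_max_left _ _
      · refine (hK a.2 b.2).trans ?_
        gcongr
        rw [Prod.edist_eq]
        exact le_max_right _ _
    refine (hlip.hausdorffMeasure_image_le (Nat.cast_nonneg d) _).trans ?_
    refine le_trans ?_ hMlt.le
    gcongr

end Pool.Agent.H407.GMTUBE
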