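import Pool.Agent.H465.OC.StmA

/-!
# Composition with the Frobenius lift
-/

set_option autoImplicit false

namespace Pool.Agent.H407.OCRelV

open Polynomial Pool.Agent.H465.OC

/-- homogenization -/
noncomputable def hmg {p : ℕ} [Fact p.Prime] (D : ℕ) (a b g : ℤ_[p][X]) : ℤ_[p][X] :=
  ∑ i ∈ Finset.range (D + 1), C (g.coeff i) * b ^ i * a ^ (D - i)

theorem hmg_dvd {p : ℕ} [Fact p.Prime] {R : Type} [CommRing R] [Algebra ℤ_[p] R]
    (f : ℤ_[p][X] →ₐ[ℤ_[p]] R) (q v : R) (a b g : ℤ_[p][X]) (D : ℕ) (hD : g.natDegree ≤ D)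
    (h : q ∣ f a * v - f b) : q ∣ f a ^ D * aeval v g - f (hmg D a b g) := by
  unfold hmg
  rw [map_sum, aeval_eq_sum_range' (Nat.lt_succ_of_le hD), Finset.mul_sum,
    ← Finset.sum_sub_distrib]
  refine Finset.dvd_sum fun i hi => ?_
  have hi' : i ≤ D := Nat.lt_succ_iff.1 (Finset.mem_range.1 hi)
  have hc : f (C (g.coeff i)) = algebraMap ℤ_[p] R (g.coeff i) := by
    rw [← algebraMap_eq, AlgHom.commutes]
  have e1 : f a ^ D = f a ^ i * f a ^ (D - i) := by
    rw [← pow_add]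
    congr 1
    omega
  have e2 : f a ^ D * g.coeff i • v ^ i - f (C (g.coeff i) * b ^ i * a ^ (D - i)) =
      algebraMap ℤ_[p] R (g.coeff i) * f a ^ (D - i) * ((f a * v) ^ i - f b ^ i) := by
    rw [map_mul, map_mul, map_pow, map_pow, hc, Algebra.smul_def, e1, mul_pow]
    ring
  rw [e2]
  exact Dvd.dvd.mul_left (h.trans (sub_dvd_pow_sub_pow _ _ i)) _

theorem unit_of_sub {p : ℕ} [Fact p.Prime] {u v : ℤ_[p]} (hu : IsUnit u)
    (h : (p : ℤ_[p]) ∣ u - v) : IsUnit v := by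
  by_contra hv
  rw [PadicInt.isUnit_iff] at hv
  have h1 : ‖v‖ < 1 := lt_of_le_of_ne v.norm_le_one hv
  have h2 : (p : ℤ_[p]) ∣ v := PadicInt.norm_lt_one_iff_dvd v |>.1 h1
  have h3 : (p : ℤ_[p]) ∣ u := by
    have := dvd_add h h2
    rwa [sub_add_cancel] at this
  have h4 : ‖u‖ < 1 := PadicInt.norm_lt_one_iff_dvd u |>.2 h3
  rw [PadicInt.isUnit_iff] at hu
  linarith

theorem main : RelV := by
  intro p _ B _ _ j c V φ hφ hdisc F s hF M
  obtain ⟨b, a, ha, hab, hax⟩ := hφ (M + 1)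
  obtain ⟨g, h, hh, hgh, hx⟩ := hF (M + 1)
  obtain ⟨D, hD⟩ : ∃ D : ℕ, D = max g.natDegree h.natDegree := ⟨_, rfl⟩
  have hDg : g.natDegree ≤ D := by rw [hD]; exact le_max_left _ _
  have hDh : h.natDegree ≤ D := by rw [hD]; exact le_max_right _ _
  have hB1 := hmg_dvd (aeval j) ((p : B) ^ (M + 1)) (V j) a b g D hDg hab
  have hB2 := hmg_dvd (aeval j) ((p : B) ^ (M + 1)) (V j) a b h D hDh hab
  have hZ : ∀ (x : ℤ_[p]) (f : ℤ_[p][X]), aeval x f = f.eval x := fun x f => by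
    rw [coe_aeval_eq_eval]
  have hX : ∀ (x : ℤ_[p]) (f : ℤ_[p][X]), f.natDegree ≤ D → (p : ℤ_[p]) ∣ x - c →
      (p : ℤ_[p]) ^ (M + 1) ∣ a.eval x ^ D * f.eval (φ x) - (hmg D a b f).eval x := by
    intro x f hf hxc
    have h1 := hmg_dvd (aeval x) ((p : ℤ_[p]) ^ (M + 1)) (φ x) a b f D hf (by
      rw [hZ, hZ]
      exact hax x hxc)
    rwa [hZ, hZ, hZ] at h1
  refine ⟨hmg D a b g, hmg D a b h, ?_, ?_, ?_⟩
  · have hcc : (p : ℤ_[p]) ∣ c - c := by
      rw [sub_self]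
      exact dvd_zero _
    have h1 := hX c h hDh hcc
    have h2 : (p : ℤ_[p]) ∣ a.eval c ^ D * h.eval (φ c) - (hmg D a b h).eval c :=
      (dvd_pow_self _ (Nat.succ_ne_zero M)).trans h1
    have h3 : (p : ℤ_[p]) ∣ a.eval c ^ D * h.eval c - a.eval c ^ D * h.eval (φ c) := by
      rw [← mul_sub]
      refine Dvd.dvd.mul_left ?_ _
      have h4 : φ c - c ∣ h.eval (φ c) - h.eval c := sub_dvd_eval_sub _ _ h
      have h5 := (hdisc c hcc).trans h4
      rwa [← dvd_neg, neg_sub] at h5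
    have h6 := dvd_add h3 h2
    rw [sub_add_sub_cancel] at h6
    exact unit_of_sub ((ha.pow D).mul hh) h6
  · have h1 : (p : B) ^ (M + 1) ∣ V (aeval j h * s - aeval j g) := by
      obtain ⟨e, he⟩ := hgh
      rw [he, map_mul, map_pow, map_natCast]
      exact dvd_mul_right _ _
    have hV : ∀ f : ℤ_[p][X], V (aeval j f) = aeval (V j) f := fun f =>
      (aeval_algHom_apply V j f).symm
    rw [map_sub, map_mul, hV, hV] at h1
    have h2 : (p : B) ^ (M + 1) ∣ aeval j (hmg D a b h) * V s - aeval j (hmg D a b g) := by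
      have e : aeval j (hmg D a b h) * V s - aeval j (hmg D a b g) =
          (aeval j a) ^ D * (aeval (V j) h * V s - aeval (V j) g) -
          ((aeval j a) ^ D * aeval (V j) h - aeval j (hmg D a b h)) * V s +
          ((aeval j a) ^ D * aeval (V j) g - aeval j (hmg D a b g)) := by ring
      rw [e]
      exact dvd_add (dvd_sub (Dvd.dvd.mul_left h1 _) (Dvd.dvd.mul_right hB2 _)) hB1
    exact (pow_dvd_pow _ (Nat.le_succ M)).trans h2
  · intro x hxc
    have h1 := hx (φ x) (hdisc x hxc)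
    have h2 := hX x g hDg hxc
    have h3 := hX x h hDh hxc
    have e : (hmg D a b h).eval x * F (φ x) - (hmg D a b g).eval x =
        a.eval x ^ D * (h.eval (φ x) * F (φ x) - g.eval (φ x)) -
        (a.eval x ^ D * h.eval (φ x) - (hmg D a b h).eval x) * F (φ x) +
        (a.eval x ^ D * g.eval (φ x) - (hmg D a b g).eval x) := by ring
    have h4 : (p : ℤ_[p]) ^ (M + 1) ∣ (hmg D a b h).eval x * F (φ x) - (hmg D a b g).eval x := by
      rw [e]
      exact dvd_add (dvd_sub (Dvd.dvd.mul_left h1 _) (Dvd.dvd.mul_right h3 _)) h2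
    exact (pow_dvd_pow _ (Nat.le_succ M)).trans h4

end Pool.Agent.H407.OCRelV
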