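import Mathlib
import Pool.Agent.H576.RD.Stm

set_option autoImplicit false
set_option linter.all false

namespace Pool.Agent.H407

open Pool.Agent.H576.RD

namespace CT1bL

theorem nsq (v : E) : ‖v‖ ^ 2 = v 0 ^ 2 + v 1 ^ 2 + v 2 ^ 2 := by
  rw [EuclideanSpace.real_norm_sq_eq, Fin.sum_univ_three]

theorem norm_eq_of {v v' : E} (h : ‖v‖ ^ 2 = ‖v'‖ ^ 2) : ‖v‖ = ‖v'‖ :=
  (pow_left_inj₀ (norm_nonneg _) (norm_nonneg _) two_ne_zero).1 h

theorem norm_cyc (v : E) : ‖cycE v‖ = ‖v‖ := by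
  apply norm_eq_of
  rw [nsq, nsq]
  simp [cycE]
  ring

theorem norm_d (v : E) : ‖dE v‖ = ‖v‖ := by
  apply norm_eq_of
  rw [nsq, nsq]
  simp [dE]

theorem norm_sw (v : E) : ‖swE v‖ = ‖v‖ := by
  apply norm_eq_of
  rw [nsq, nsq]
  simp [swE]
  ring

/-- the four linear forms -/
def qq (w : E) : Fin 4 → ℝ :=
  ![w 0 + w 1 + w 2, w 0 - w 1 - w 2, -w 0 + w 1 - w 2, -w 0 - w 1 + w 2]

theorem nsq_sub (w : E) (c : ℝ) (i : Fin 4) :
    ‖w - c • tv i‖ ^ 2 = ‖w‖ ^ 2 - 2 * c * (qq w i) / Real.sqrt 3 + c ^ 2 := by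
  have h3 : Real.sqrt 3 ^ 2 = 3 := Real.sq_sqrt (by norm_num)
  have h0 : Real.sqrt 3 ≠ 0 := by positivity
  rw [nsq, nsq]
  fin_cases i
  all_goals
    simp [tv, qq]
    field_simp
    linear_combination (-(c ^ 2)) * h3

theorem sum_qq (w : E) : ∑ i, qq w i = 0 := by
  simp [qq, Fin.sum_univ_four]
  ring

theorem sum_qq_sq (w : E) : ∑ i, qq w i ^ 2 = 4 * ‖w‖ ^ 2 := by
  rw [nsq]
  simp [qq, Fin.sum_univ_four]
  ring

/-- the images under the reflections -/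
theorem pts {X : Set E} (hc : Sym X 2 cycE) (hd : Sym X 2 dE) (hs : Sym X 2 swE) {w : E}
    (hw : w ∈ X) (hw2 : ‖w‖ ≤ 2) (i j : Fin 4) :
    ∃ R ∈ X, ‖R - w‖ ^ 2 = (qq w i - qq w j) ^ 2 / 2 := by
  have C : ∀ v : E, v ∈ X ∧ ‖v‖ ≤ 2 → cycE v ∈ X ∧ ‖cycE v‖ ≤ 2 := fun v h =>
    ⟨(hc v h.2).1 h.1, by rw [norm_cyc]; exact h.2⟩
  have D : ∀ v : E, v ∈ X ∧ ‖v‖ ≤ 2 → dE v ∈ X ∧ ‖dE v‖ ≤ 2 := fun v h =>
    ⟨(hd v h.2).1 h.1, by rw [norm_d]; exact h.2⟩
  have S : ∀ v : E, v ∈ X ∧ ‖v‖ ≤ 2 → swE v ∈ X ∧ ‖swE v‖ ≤ 2 := fun v h =>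
    ⟨(hs v h.2).1 h.1, by rw [norm_sw]; exact h.2⟩
  have h0 : w ∈ X ∧ ‖w‖ ≤ 2 := ⟨hw, hw2⟩
  -- (b, a, c)
  have r12 := (S _ h0).1
  have e12 : ‖swE w - w‖ ^ 2 = (qq w 1 - qq w 2) ^ 2 / 2 := by
    rw [nsq]; simp [swE, qq]; ring
  -- (c, b, a)
  have r13 := (S _ (C _ h0)).1
  have e13 : ‖swE (cycE w) - w‖ ^ 2 = (qq w 1 - qq w 3) ^ 2 / 2 := by
    rw [nsq]; simp [swE, cycE, qq]; ring
  -- (a, c, b)
  have r23 := (S _ (C _ (C _ h0))).1
  have e23 : ‖swE (cycE (cycE w)) - w‖ ^ 2 = (qq w 2 - qq w 3) ^ 2 / 2 := by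
    rw [nsq]; simp [swE, cycE, qq]; ring
  -- (a, -c, -b)
  have r01 := (D _ (S _ (C _ (C _ h0)))).1
  have e01 : ‖dE (swE (cycE (cycE w))) - w‖ ^ 2 = (qq w 0 - qq w 1) ^ 2 / 2 := by
    rw [nsq]; simp [swE, cycE, dE, qq]; ring
  -- (-c, b, -a)
  have r02 := (C _ (C _ (D _ (C _ (S _ (C _ h0)))))).1
  have e02 : ‖cycE (cycE (dE (cycE (swE (cycE w))))) - w‖ ^ 2 = (qq w 0 - qq w 2) ^ 2 / 2 := by
    rw [nsq]; simp [swE, cycE, dE, qq]; ring
  -- (-b, -a, c)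
  have r03 := (C _ (D _ (C _ (C _ (S _ h0))))).1
  have e03 : ‖cycE (dE (cycE (cycE (swE w)))) - w‖ ^ 2 = (qq w 0 - qq w 3) ^ 2 / 2 := by
    rw [nsq]; simp [swE, cycE, dE, qq]; ring
  have sy : ∀ i j : Fin 4, (qq w i - qq w j) ^ 2 / 2 = (qq w j - qq w i) ^ 2 / 2 := fun i j => by
    ring
  have dg : ∀ i : Fin 4, ‖w - w‖ ^ 2 = (qq w i - qq w i) ^ 2 / 2 := fun i => by simp
  fin_cases i <;> fin_cases j
  · exact ⟨w, hw, dg 0⟩
  · exact ⟨_, r01, e01⟩
  · exact ⟨_, r02, e02⟩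
  · exact ⟨_, r03, e03⟩
  · exact ⟨_, r01, e01.trans (sy 0 1)⟩
  · exact ⟨w, hw, dg 1⟩
  · exact ⟨_, r12, e12⟩
  · exact ⟨_, r13, e13⟩
  · exact ⟨_, r02, e02.trans (sy 0 2)⟩
  · exact ⟨_, r12, e12.trans (sy 1 2)⟩
  · exact ⟨w, hw, dg 2⟩
  · exact ⟨_, r23, e23⟩
  · exact ⟨_, r03, e03.trans (sy 0 3)⟩
  · exact ⟨_, r13, e13.trans (sy 1 3)⟩
  · exact ⟨_, r23, e23.trans (sy 2 3)⟩
  · exact ⟨w, hw, dg 3⟩

/-- the case analysis for four sorted real numbers -/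
theorem core4 {a b c d : ℝ} (hab : a = b ∨ 0.544 ≤ a - b) (hbc : b = c ∨ 0.544 ≤ b - c)
    (hcd : c = d ∨ 0.544 ≤ c - d) (hsum : a + b + c + d = 0)
    (hsq : a ^ 2 + b ^ 2 + c ^ 2 + d ^ 2 = 4 / 3) (ha : a < 1 / 2) (hd : -(3 / 4) < d) : False := by
  rcases hab with rfl | hab
  · rcases hbc with rfl | hbc
    · rcases hcd with rfl | hcd
      · have : a = 0 := by linarith
        subst this
        norm_num at hsq
      · have e : d = -3 * a := by linarith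
        subst e
        have h1 : a < 1 / 4 := by linarith
        have h2 : 0 < a := by linarith
        nlinarith
    · rcases hcd with rfl | hcd
      · have e : c = -a := by linarith
        subst e
        have h2 : 0 < a := by linarith
        nlinarith
      · have e : c = -2 * a - d := by linarith
        subst e
        have h2 : 0 < a := by linarith
        nlinarith [mul_pos h2 (sub_pos.2 ha), mul_nonneg (sub_pos.2 hd).le
          (by linarith : (0 : ℝ) ≤ -(2 * a + d - 3 / 4))]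
  · rcases hbc with rfl | hbc
    · rcases hcd with rfl | hcd
      · have e : a = -3 * b := by linarith
        subst e
        have h1 : b < 0 := by linarith
        nlinarith
      · linarith
    · rcases hcd with rfl | hcd
      · linarith
      · linarith

/-- the case analysis -/
theorem core (t : Fin 4 → ℝ) (hgap : ∀ i j, t j ≤ t i → t i = t j ∨ 0.544 ≤ t i - t j)
    (hsum : ∑ i, t i = 0) (hsq : ∑ i, t i ^ 2 = 4 / 3) (hup : ∀ i, t i < 1 / 2)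
    (hlo : ∀ i, -(3 / 4) < t i) : False := by
  set σ := Tuple.sort t with hσ
  have hm : Monotone (t ∘ σ) := Tuple.monotone_sort t
  have h1 : t (σ 0) ≤ t (σ 1) := hm (by decide)
  have h2 : t (σ 1) ≤ t (σ 2) := hm (by decide)
  have h3 : t (σ 2) ≤ t (σ 3) := hm (by decide)
  have s1 : t (σ 3) + t (σ 2) + t (σ 1) + t (σ 0) = 0 := by
    rw [← hsum, ← Equiv.sum_comp σ t, Fin.sum_univ_four]
    ring
  have s2 : t (σ 3) ^ 2 + t (σ 2) ^ 2 + t (σ 1) ^ 2 + t (σ 0) ^ 2 = 4 / 3 := by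
    rw [← hsq, ← Equiv.sum_comp σ (fun i => t i ^ 2), Fin.sum_univ_four]
    ring
  exact core4 (hgap _ _ h3) (hgap _ _ h2) (hgap _ _ h1) s1 s2 (hup _) (hlo _)

end CT1bL

open CT1bL

theorem rd_ct1b : S_CT1b := by
  intro X s L ε h0X hc hd hsw hmin hL2 hsL hε hs2 hneg hposL hlens w hwX hw0 hwL
  by_contra hcon
  push Not at hcon
  have hspos := hmin.pos
  have hε2 : ε ^ 2 = 1 := by rcases hε with rfl | rfl <;> norm_num
  set N := ‖w‖ with hN
  have hN0 : 0 < N := norm_pos_iff.2 hw0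
  have hL0 : 0 < L := hspos.trans hsL
  have h3 : Real.sqrt 3 ^ 2 = 3 := Real.sq_sqrt (by norm_num)
  have h30 : 0 < Real.sqrt 3 := by positivity
  have hNs : N < 3 / 2 * s := by linarith
  let t : Fin 4 → ℝ := fun i => ε * qq w i / (Real.sqrt 3 * N)
  have htN : ∀ i, t i * N = ε * qq w i / Real.sqrt 3 := by
    intro i
    show ε * qq w i / (Real.sqrt 3 * N) * N = _
    field_simp
  refine core t ?_ ?_ ?_ ?_ ?_
  · intro i j hji
    by_contra hno
    push Not at hno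
    obtain ⟨hne, hlt⟩ := hno
    obtain ⟨R, hR, hRn⟩ := pts hc hd hsw hwX (by linarith) i j
    have hdiff : (qq w i - qq w j) ^ 2 = 3 * N ^ 2 * (t i - t j) ^ 2 := by
      have e : (t i - t j) * N = ε * (qq w i - qq w j) / Real.sqrt 3 := by
        rw [sub_mul, htN, htN]; ring
      have e2 : ((t i - t j) * N) ^ 2 = (qq w i - qq w j) ^ 2 / 3 := by
        rw [e, div_pow, mul_pow, hε2, h3, one_mul]
      have e3 : (qq w i - qq w j) ^ 2 = 3 * ((t i - t j) * N) ^ 2 := by rw [e2]; ring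
      rw [e3]; ring
    have hRw : w ≠ R := by
      intro e
      rw [← e, sub_self, norm_zero, hdiff] at hRn
      have h1 : (t i - t j) ^ 2 = 0 := by
        have h2 : 3 * N ^ 2 * (t i - t j) ^ 2 = 0 := by linarith
        rcases mul_eq_zero.1 h2 with h4 | h4
        · exfalso
          have : 0 < 3 * N ^ 2 := by positivity
          linarith
        · exact h4
      apply hne
      have := pow_eq_zero_iff (two_ne_zero) |>.1 h1
      linarith
    have hs1 := hmin.le w hwX R hR hRw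
    have hs3 : s ^ 2 ≤ ‖R - w‖ ^ 2 := pow_le_pow_left₀ hspos.le hs1 2
    rw [hRn, hdiff] at hs3
    have h5 : 0 ≤ t i - t j := by linarith
    have h6 : (t i - t j) ^ 2 < 0.544 ^ 2 := by
      have : t i - t j < 0.544 := hlt
      exact pow_lt_pow_left₀ this h5 two_ne_zero
    have h7 : N ^ 2 < (3 / 2 * s) ^ 2 := pow_lt_pow_left₀ hNs hN0.le two_ne_zero
    have h8 : 3 * N ^ 2 * (t i - t j) ^ 2 ≤ 3 * (3 / 2 * s) ^ 2 * 0.544 ^ 2 := by
      refine mul_le_mul ?_ h6.le (sq_nonneg _) (by positivity)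
      linarith
    have h9 : 0 < s ^ 2 := by positivity
    nlinarith
  · show ∑ i, ε * qq w i / (Real.sqrt 3 * N) = 0
    rw [← Finset.sum_div, ← Finset.mul_sum, sum_qq]
    simp
  · show ∑ i, (ε * qq w i / (Real.sqrt 3 * N)) ^ 2 = 4 / 3
    have e : ∀ i, (ε * qq w i / (Real.sqrt 3 * N)) ^ 2 = qq w i ^ 2 / (3 * N ^ 2) := by
      intro i
      rw [div_pow, mul_pow, mul_pow, hε2, h3, one_mul]
    rw [Finset.sum_congr rfl (fun i _ => e i), ← Finset.sum_div, sum_qq_sq, ← hN]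
    field_simp
  · intro i
    have h1 := hlens i w hwX hwL
    have h2 : L ^ 2 ≤ ‖w - (ε * L) • tv i‖ ^ 2 := pow_le_pow_left₀ hL0.le h1 2
    rw [nsq_sub] at h2
    have e : 2 * (ε * L) * qq w i / Real.sqrt 3 = 2 * L * (t i * N) := by rw [htN]; ring
    rw [e, mul_pow, hε2, one_mul] at h2
    have h4 : 2 * L * t i * N ≤ N * N := by nlinarith
    have h5 : 2 * L * t i ≤ N := le_of_mul_le_mul_right h4 hN0
    by_contra h6
    rw [not_lt] at h6
    have : L ≤ 2 * L * t i := by nlinarith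
    linarith
  · intro i
    have hne : -((ε * s) • tv i) ≠ w := fun e => hcon i e.symm
    have h1 := hmin.le _ (hneg i) w hwX hne
    have h2 : s ^ 2 ≤ ‖w - -((ε * s) • tv i)‖ ^ 2 := pow_le_pow_left₀ hspos.le h1 2
    have e0 : w - -((ε * s) • tv i) = w - (-(ε * s)) • tv i := by rw [neg_smul]
    rw [e0, nsq_sub] at h2
    have e : 2 * (-(ε * s)) * qq w i / Real.sqrt 3 = -(2 * s * (t i * N)) := by rw [htN]; ring
    have e1 : (-(ε * s)) ^ 2 = s ^ 2 := by rw [neg_sq, mul_pow, hε2, one_mul]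
    rw [e, e1] at h2
    have h4 : -(N) * N ≤ 2 * s * t i * N := by nlinarith
    have h5 : -N ≤ 2 * s * t i := le_of_mul_le_mul_right h4 hN0
    by_contra h6
    rw [not_lt] at h6
    nlinarith

end Pool.Agent.H407
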