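import Pool.Agent.H676.SC.Stm

set_option autoImplicit false

/-!
# SC-INV: what a gate gets depends only on the values on its support
-/

namespace Pool.Agent.H407.SCI

open Finset Pool.Agent.H676.SC

variable {V D L : Type}

theorem key (C : Circuit V D L) (g : C.Gate) {ρ : Equiv.Perm V}
    (h : C.wiring g ρ = C.wiring g 1) (G : SimpleGraph V) : inp C (G.comap ρ) g = inp C G g := by
  have e1 : ∀ σ : Equiv.Perm V, inp C (G.comap σ) g =
      (fun w : Option (SimpleGraph V → Bool) × Multiset (L × (SimpleGraph V → D)) =>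
        (w.1.map (fun f => f G), w.2.map (fun x => (x.1, x.2 G)))) (C.wiring g σ) := by
    intro σ
    unfold inp Circuit.wiring
    simp only [Option.map_map, Multiset.map_map]
    rfl
  have e2 : G.comap (1 : Equiv.Perm V) = G := SimpleGraph.comap_id
  have e3 := e1 1
  rw [e2] at e3
  rw [e1, h, ← e3]

theorem comap_comp (A : SimpleGraph V) (p ρ : Equiv.Perm V) :
    (A.comap p).comap ρ = A.comap (p * ρ : Equiv.Perm V) := rfl

theorem swap_isolated [DecidableEq V] (A : SimpleGraph V) {x y : V} (hx : ∀ w, ¬ A.Adj x w)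
    (hy : ∀ w, ¬ A.Adj y w) : A.comap (Equiv.swap x y) = A := by
  have h1 : ∀ a, (∀ w, ¬ A.Adj a w) ∧ (∀ w, ¬ A.Adj (Equiv.swap x y a) w) ∨
      Equiv.swap x y a = a := by
    intro a
    by_cases hax : a = x
    · subst hax
      left
      rw [Equiv.swap_apply_left]
      exact ⟨hx, hy⟩
    · by_cases hay : a = y
      · subst hay
        left
        rw [Equiv.swap_apply_right]
        exact ⟨hy, hx⟩
      · right
        exact Equiv.swap_apply_of_ne_of_ne hax hay
  ext a b
  rw [SimpleGraph.comap_adj]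
  rcases h1 a with ha | ha
  · exact ⟨fun h => absurd h (ha.2 _), fun h => absurd h (ha.1 _)⟩
  · rcases h1 b with hb | hb
    · exact ⟨fun h => absurd h.symm (hb.2 _), fun h => absurd h.symm (hb.1 _)⟩
    · rw [ha, hb]

theorem two_isolated [Fintype V] [DecidableEq V] (A : SimpleGraph V) (p : Equiv.Perm V)
    (Δ : Finset V) (h : Δ.card + 2 ≤ {v : V | ∀ w, ¬ A.Adj v w}.ncard) :
    ∃ x y : V, x ∉ Δ ∧ y ∉ Δ ∧ x ≠ y ∧ (∀ w, ¬ (A.comap p).Adj x w) ∧
      ∀ w, ¬ (A.comap p).Adj y w := by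
  classical
  set F : Finset V := univ.filter fun v => ∀ w, ¬ A.Adj v w with hF
  have h1 : {v : V | ∀ w, ¬ A.Adj v w} = (F : Set V) := by
    ext v
    rw [hF, Finset.mem_coe, Finset.mem_filter]
    exact ⟨fun h => ⟨Finset.mem_univ _, h⟩, fun h => h.2⟩
  rw [h1, Set.ncard_coe_finset] at h
  set J : Finset V := F.image p.symm with hJ
  have h2 : J.card = F.card := Finset.card_image_of_injective _ p.symm.injective
  have h3 : 1 < (J \ Δ).card := by
    have := Finset.le_card_sdiff Δ J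
    omega
  obtain ⟨x, hx, y, hy, hxy⟩ := Finset.one_lt_card.1 h3
  have h4 : ∀ z ∈ J, ∀ w, ¬ (A.comap p).Adj z w := by
    intro z hz w hw
    rw [hJ, Finset.mem_image] at hz
    obtain ⟨v, hv, rfl⟩ := hz
    rw [SimpleGraph.comap_adj, Equiv.apply_symm_apply] at hw
    exact (Finset.mem_filter.1 hv).2 _ hw
  rw [Finset.mem_sdiff] at hx hy
  exact ⟨x, y, hx.2, hy.2, hxy, h4 x hx.1, h4 y hy.1⟩

/-- **INV** -/
theorem t_INV : S_INV := by
  intro V D L _ _ C g Δ hΔ A hA p q hpq
  set ρ : Equiv.Perm V := p⁻¹ * q with hρ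
  have hfix : ∀ x ∈ Δ, ρ x = x := by
    intro x hx
    rw [hρ, Equiv.Perm.mul_apply, ← hpq x hx]
    exact p.symm_apply_apply x
  have hcomap : A.comap q = (A.comap p).comap ρ := by
    rw [comap_comp, hρ, mul_inv_cancel_left]
  rw [hcomap]
  rcases Int.units_eq_one_or (Equiv.Perm.sign ρ) with hs | hs
  · exact (key C g (hΔ ρ hs hfix) _).symm
  · obtain ⟨x, y, hx, hy, hxy, hxi, hyi⟩ := two_isolated A p Δ hA
    have h1 : (A.comap p).comap ρ = (A.comap p).comap (Equiv.swap x y * ρ : Equiv.Perm V) := by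
      rw [← comap_comp (A.comap p) (Equiv.swap x y) ρ, swap_isolated _ hxi hyi]
    rw [h1]
    refine (key C g (hΔ _ ?_ ?_) _).symm
    · rw [Equiv.Perm.sign_mul, Equiv.Perm.sign_swap hxy, hs]
      norm_num
    · intro z hz
      rw [Equiv.Perm.mul_apply, hfix z hz]
      exact Equiv.swap_apply_of_ne_of_ne (fun h => hx (h ▸ hz)) (fun h => hy (h ▸ hz))

end Pool.Agent.H407.SCI
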