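import Pool.Agent.H770.GS.TF

/-!
# TF-10: Gaussian tail times the square of the sine
-/

set_option autoImplicit false

open MeasureTheory Set intervalIntegral Filter Topology

namespace Pool.Agent.H407.TF

open Pool.Agent.H770.GS

/-- primitive of `sin² τ e^(-lτ)` -/
noncomputable def Gp (l τ : ℝ) : ℝ :=
  Real.exp (-(l * τ)) * (-(1 / (2 * l)) +
    (l * Real.cos (2 * τ) - 2 * Real.sin (2 * τ)) / (2 * (l ^ 2 + 4)))

theorem Gp_der {l : ℝ} (hl : 0 < l) (τ : ℝ) :
    HasDerivAt (Gp l) (Real.sin τ ^ 2 * Real.exp (-(l * τ))) τ := by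
  have h0 : HasDerivAt (fun τ : ℝ => -(l * τ)) (-l) τ := by
    have := ((hasDerivAt_id' τ).const_mul l).fun_neg
    simpa using this
  have h2 : HasDerivAt (fun τ : ℝ => 2 * τ) 2 τ := by
    have := (hasDerivAt_id' τ).const_mul (2 : ℝ)
    simpa using this
  have hc := h2.cos
  have hs := h2.sin
  have h3 := h0.exp.fun_mul ((((hc.const_mul l).fun_sub (hs.const_mul 2)).div_const
    (2 * (l ^ 2 + 4))).const_add (-(1 / (2 * l))))
  refine h3.congr_deriv ?_
  have e1 : Real.cos (2 * τ) = 1 - 2 * Real.sin τ ^ 2 := by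
    rw [Real.cos_two_mul]
    have := Real.sin_sq_add_cos_sq τ
    linarith
  have h4 : l ^ 2 + 4 ≠ 0 := by positivity
  rw [e1]
  field_simp
  ring

theorem Gp_bd {l : ℝ} (hl : 0 < l) (τ : ℝ) :
    |Gp l τ| ≤ Real.exp (-(l * τ)) * (1 / (2 * l) + (l + 2) / (2 * (l ^ 2 + 4))) := by
  unfold Gp
  rw [abs_mul, abs_of_pos (Real.exp_pos _)]
  refine mul_le_mul_of_nonneg_left ?_ (Real.exp_pos _).le
  refine (abs_add_le _ _).trans (add_le_add ?_ ?_)
  · rw [abs_neg, abs_of_pos (by positivity)]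
  · rw [abs_div, abs_of_pos (show 0 < 2 * (l ^ 2 + 4) by positivity)]
    refine div_le_div_of_nonneg_right ?_ (by positivity)
    refine (abs_sub _ _).trans ?_
    rw [abs_mul, abs_mul, abs_of_pos hl, abs_of_pos (show (0 : ℝ) < 2 by norm_num)]
    have h1 := Real.abs_cos_le_one (2 * τ)
    have h2 := Real.abs_sin_le_one (2 * τ)
    nlinarith

theorem Gp_lim {l : ℝ} (hl : 0 < l) : Tendsto (Gp l) atTop (𝓝 0) := by
  have h1 : Tendsto (fun τ : ℝ => Real.exp (-(l * τ))) atTop (𝓝 0) :=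
    Real.tendsto_exp_neg_atTop_nhds_zero.comp (tendsto_id.const_mul_atTop hl)
  have h2 := h1.mul_const (1 / (2 * l) + (l + 2) / (2 * (l ^ 2 + 4)))
  rw [zero_mul] at h2
  exact squeeze_zero_norm (fun τ => Gp_bd hl τ) h2

theorem Gp_pi {l : ℝ} (hl : 0 < l) :
    Gp l Real.pi = -(Real.exp (-(l * Real.pi)) * 2 / (l * (l ^ 2 + 4))) := by
  unfold Gp
  rw [Real.cos_two_pi, Real.sin_two_pi]
  have h4 : l ^ 2 + 4 ≠ 0 := by positivity
  field_simp
  ring

theorem integrable_exp_sin {l : ℝ} (hl : 0 < l) :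
    IntegrableOn (fun τ => Real.sin τ ^ 2 * Real.exp (-(l * τ))) (Ioi Real.pi) := by
  have h1 : IntegrableOn (fun τ : ℝ => Real.exp (-l * τ)) (Ioi Real.pi) :=
    integrableOn_exp_mul_Ioi (by linarith) _
  refine Integrable.mono' h1 ?_ ?_
  · exact (Continuous.aestronglyMeasurable (by fun_prop))
  · refine Eventually.of_forall fun τ => ?_
    rw [Real.norm_of_nonneg (by positivity), neg_mul]
    have h2 : Real.sin τ ^ 2 ≤ 1 := Real.sin_sq_le_one τ
    have h3 := Real.exp_pos (-(l * τ))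
    nlinarith

theorem exp_sin {l : ℝ} (hl : 0 < l) :
    ∫ τ in Ioi Real.pi, Real.sin τ ^ 2 * Real.exp (-(l * τ)) =
      Real.exp (-(l * Real.pi)) * 2 / (l * (l ^ 2 + 4)) := by
  have h1 := integral_Ioi_of_hasDerivAt_of_tendsto (a := Real.pi) (m := 0)
    (Gp_der hl Real.pi).continuousAt.continuousWithinAt (fun x _ => Gp_der hl x)
    (integrable_exp_sin hl) (Gp_lim hl)
  rw [h1, Gp_pi hl]
  ring

theorem tf10 : S_TF10 := by
  intro c hc
  have hl : 0 < 42 / 5 * c := by positivity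
  have hpt : ∀ τ : ℝ, Real.sin τ ^ 2 * Real.exp (-(c * τ ^ 2)) ≤
      Real.exp (c * (21 / 5) ^ 2) * (Real.sin τ ^ 2 * Real.exp (-(42 / 5 * c * τ))) := by
    intro τ
    have h1 : Real.exp (-(c * τ ^ 2)) ≤
        Real.exp (c * (21 / 5) ^ 2) * Real.exp (-(42 / 5 * c * τ)) := by
      rw [← Real.exp_add]
      refine Real.exp_le_exp.2 ?_
      have h2 : 0 ≤ c * (τ - 21 / 5) ^ 2 := by positivity
      nlinarith
    have h2 : 0 ≤ Real.sin τ ^ 2 := by positivity
    calc Real.sin τ ^ 2 * Real.exp (-(c * τ ^ 2)) ≤ Real.sin τ ^ 2 *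
        (Real.exp (c * (21 / 5) ^ 2) * Real.exp (-(42 / 5 * c * τ))) :=
          mul_le_mul_of_nonneg_left h1 h2
      _ = _ := by ring
  have hI := (integrable_exp_sin hl).const_mul (Real.exp (c * (21 / 5) ^ 2))
  have hI2 : IntegrableOn (fun τ => Real.sin τ ^ 2 * Real.exp (-(c * τ ^ 2))) (Ioi Real.pi) := by
    refine Integrable.mono' hI ?_ ?_
    · exact (Continuous.aestronglyMeasurable (by fun_prop))
    · refine Eventually.of_forall fun τ => ?_
      rw [Real.norm_of_nonneg (by positivity)]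
      exact hpt τ
  refine ⟨hI2, ?_⟩
  have h3 := setIntegral_mono hI2 hI hpt
  refine h3.trans (le_of_eq ?_)
  rw [MeasureTheory.integral_const_mul, exp_sin hl]
  unfold Eb
  rw [Real.exp_sub, Real.exp_neg]
  field_simp

end Pool.Agent.H407.TF
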